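import Pool.Agent.Lib.H57LW.A19

/-!
# The abstract arithmetic theorem
-/

open Finset PowerSeries
open scoped Nat

namespace Pool.Agent.H57LW

/-- Order and leading coefficient. -/
theorem mn_lead {K : Type*} [Field K] (Xi : K⟦X⟧) (h : Xi ≠ 0) :
    ∃ (e : ℕ) (c : K), c ≠ 0 ∧ Lead e (PowerSeries.C c⁻¹ * Xi) := by
  classical
  have h1 : ∃ n, coeff n Xi ≠ 0 := by
    by_contra h2
    push Not at h2
    exact h (PowerSeries.ext fun n => by rw [h2 n, map_zero])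
  refine ⟨Nat.find h1, coeff (Nat.find h1) Xi, Nat.find_spec h1, ?_, ?_⟩
  · intro i hi
    rw [PowerSeries.coeff_C_mul, not_not.1 (Nat.find_min h1 hi), mul_zero]
  · rw [PowerSeries.coeff_C_mul, inv_mul_cancel₀ (Nat.find_spec h1)]

/-- `TT` and constants. -/
theorem mn_TT (m c : ℂ) (F : ℂ⟦X⟧) : TT m (PowerSeries.C c * F) = PowerSeries.C c * TT m F := by
  ext n
  rw [PowerSeries.coeff_C_mul]
  simp only [TT, PowerSeries.coeff_mk]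
  rw [← tsum_mul_left]
  refine tsum_congr fun i => ?_
  rw [PowerSeries.coeff_C_mul]
  ring

/-- Geometric growth and constants. -/
theorem mn_geo (c : ℂ) (F : ℂ⟦X⟧) (h : ∃ C : ℝ, ∀ i, ‖coeff i F‖ ≤ C ^ (i + 1)) :
    ∃ C : ℝ, ∀ i, ‖coeff i (PowerSeries.C c * F)‖ ≤ C ^ (i + 1) := by
  obtain ⟨C, hC⟩ := h
  refine ⟨(‖c‖ + 1) * |C|, fun i => ?_⟩
  rw [PowerSeries.coeff_C_mul, norm_mul, mul_pow]
  have h1 : ‖c‖ ≤ (‖c‖ + 1) ^ (i + 1) := by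
    have h2 : (1 : ℝ) ≤ ‖c‖ + 1 := by linarith [norm_nonneg c]
    have h3 := pow_le_pow_right₀ h2 (Nat.le_add_left 1 i)
    rw [pow_one] at h3
    linarith
  have h4 : ‖coeff i F‖ ≤ |C| ^ (i + 1) := (hC i).trans (by rw [← abs_pow]; exact le_abs_self _)
  exact mul_le_mul h1 h4 (norm_nonneg _) (by positivity)

/-- Division of `Xi0`, `Xi` by their leading coefficients. -/
theorem main {K : Type*} [Field K] [NumberField K] (i0 : K →+* ℂ) {lam kap bx : Type} [Fintype lam] [Finite kap]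
    [Fintype bx] [DecidableEq bx] (b0 : bx)
    (Psa Psp : lam → K⟦X⟧) (Xi0 : K⟦X⟧) (hXi0 : Xi0 ≠ 0) (hPs : ∀ l, Psa l = Xi0 * Psp l)
    (Ha Hp : kap → lam → bx → K⟦X⟧) (Xi : K⟦X⟧) (hXi : Xi ≠ 0) (hH : ∀ k l b, Ha k l b = Xi * Hp k l b)
    (hAG1 : ∀ (σ : K →+* ℂ) l, AG (PowerSeries.map σ (Psa l)))
    (hAG2 : ∀ (σ : K →+* ℂ) k l b, AG (PowerSeries.map σ (Ha k l b)))
    (d : ℕ → ℕ) (hd : Den d) (hd1 : ∀ i l, IsIntegral ℤ ((d i : K) * coeff i (Psp l)))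
    (hd2 : ∀ i k l b, IsIntegral ℤ ((d i : K) * coeff i (Hp k l b)))
    (m0 l T Nt : ℕ) (hm0 : 1 ≤ m0) (th : ℕ → bx → ℂ) (hth : ∀ m, 1 ≤ m → m ≤ m0 → th m b0 = 1)
    (hfew : ∀ m, 1 ≤ m → m ≤ m0 → Few i0 b0 (th m) l)
    (hlink : ∀ m, 1 ≤ m → m ≤ m0 → ∀ k, ∃ Th : ℂ⟦X⟧, (∃ C : ℝ, ∀ i, ‖coeff i Th‖ ≤ C ^ (i + 1)) ∧
      ∀ l, ∑ b, PowerSeries.map i0 (Ha k l b) * PowerSeries.C (th m b) =
        Th * TT (m : ℂ) (PowerSeries.map i0 (Psa l)))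
    (hzeh : ∀ (D : ℕ) (p : Fin D → lam → ℤ), p ≠ 0 → ∃ m, 1 ≤ m ∧ m ≤ m0 ∧
      (Pi.single b0 1 : bx → K) ∈ Submodule.span K {v | ∃ k i, i ≤ T + D * Nt / m0 ∧
        v = fun b => coeff i (RS m (fun l => Hp k l b) p)})
    (hnum1 : 64 * Module.finrank ℚ K * Nt ≤ m0 * Fintype.card lam)
    (hnum2 : 10 ^ 4 * Module.finrank ℚ K ^ 2 * (l + 1) ≤ Fintype.card lam) : False := by
  obtain ⟨e1, c1, hc1, hL1⟩ := mn_lead Xi0 hXi0
  obtain ⟨e0, c0, hc0, hL0⟩ := mn_lead Xi hXi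
  refine main_lead i0 b0 (fun l => PowerSeries.C c1⁻¹ * Psa l) Psp e1 (PowerSeries.C c1⁻¹ * Xi0) hL1
    (fun l => by rw [hPs, mul_assoc]) (fun k l b => PowerSeries.C c0⁻¹ * Ha k l b) Hp e0 (PowerSeries.C c0⁻¹ * Xi) hL0
    (fun k l b => by rw [hH, mul_assoc]) (fun σ l => ?_) (fun σ k l b => ?_) d hd hd1 hd2 m0 l T Nt hm0 th hth hfew
    (fun m hm1 hm2 k => ?_) hzeh hnum1 hnum2
  · rw [map_mul, PowerSeries.map_C]
    exact ag_smul _ (hAG1 σ l)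
  · rw [map_mul, PowerSeries.map_C]
    exact ag_smul _ (hAG2 σ k l b)
  · obtain ⟨Th, hTh, hl⟩ := hlink m hm1 hm2 k
    refine ⟨PowerSeries.C (i0 c0⁻¹ * i0 c1) * Th, mn_geo _ _ hTh, fun l => ?_⟩
    have h1 : ∑ b, PowerSeries.map i0 (PowerSeries.C c0⁻¹ * Ha k l b) * PowerSeries.C (th m b) =
        PowerSeries.C (i0 c0⁻¹) * ∑ b, PowerSeries.map i0 (Ha k l b) * PowerSeries.C (th m b) := by
      rw [Finset.mul_sum]
      refine Finset.sum_congr rfl fun b _ => ?_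
      rw [map_mul, PowerSeries.map_C, mul_assoc]
    have h2 : TT (m : ℂ) (PowerSeries.map i0 (PowerSeries.C c1⁻¹ * Psa l)) =
        PowerSeries.C (i0 c1⁻¹) * TT (m : ℂ) (PowerSeries.map i0 (Psa l)) := by
      rw [map_mul, PowerSeries.map_C, mn_TT]
    have h3 : (PowerSeries.C (i0 c1) : ℂ⟦X⟧) * PowerSeries.C (i0 c1⁻¹) = 1 := by
      rw [← map_mul, ← map_mul, mul_inv_cancel₀ hc1, map_one, map_one]
    rw [h1, h2, hl, map_mul]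
    calc PowerSeries.C (i0 c0⁻¹) * (Th * TT (m : ℂ) (PowerSeries.map i0 (Psa l)))
        = PowerSeries.C (i0 c0⁻¹) * Th * TT (m : ℂ) (PowerSeries.map i0 (Psa l)) * 1 := by ring
      _ = _ := by
          rw [← h3]
          ring

end Pool.Agent.H57LW
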