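import Pool.Agent.Lib.H57LW.Defs

/-!
# `Few` from the dimension of the span
-/

open Finset

namespace Pool.Agent.H57LW

/-- A basis of the span among the values, containing the value at `b0`. -/
theorem span_basis {K bx : Type*} [Field K] [Fintype bx] (i0 : K →+* ℂ) (b0 : bx) (th : bx → ℂ) (hb0 : th b0 ≠ 0) :
    letI := i0.toAlgebra
    ∃ B : Finset bx, b0 ∈ B ∧ LinearIndepOn K th (B : Set bx) ∧ ∀ b, th b ∈ Submodule.span K (th '' (B : Set bx)) := by
  classical
  letI := i0.toAlgebra
  have h0 : LinearIndepOn K th {b0} := by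
    rw [linearIndepOn_singleton_iff]
    exact hb0
  obtain ⟨S, -, h2, h3, h4⟩ := exists_linearIndepOn_extension h0 (Set.subset_univ {b0})
  refine ⟨S.toFinset, ?_, ?_, ?_⟩
  · rw [Set.mem_toFinset]
    exact h2 (Set.mem_singleton b0)
  · rw [Set.coe_toFinset]
    exact h4
  · intro b
    rw [Set.coe_toFinset]
    exact h3 ⟨b, Set.mem_univ b, rfl⟩

/-- `Few` from such a basis. -/
theorem span_few {K bx : Type*} [Field K] [Fintype bx] (i0 : K →+* ℂ) (b0 : bx) (th : bx → ℂ)
    (l : ℕ) (B : Finset bx) (hb : b0 ∈ B) (hl : B.card ≤ l)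
    (h : letI := i0.toAlgebra; ∀ b, th b ∈ Submodule.span K (th '' (B : Set bx))) : Few i0 b0 th l := by
  classical
  letI := i0.toAlgebra
  have hsm : ∀ (x : K) (y : ℂ), x • y = i0 x * y := fun x y => Algebra.smul_def x y
  have h' : ∀ b, ∃ c : bx → K, ∑ b' ∈ B, c b' • th b' = th b := by
    intro b
    obtain ⟨c, hc⟩ := (Submodule.mem_span_image_finset_iff_exists_fun K).1 (h b)
    refine ⟨fun b' => if hb' : b' ∈ B then c ⟨b', hb'⟩ else 0, ?_⟩
    rw [← hc, ← Finset.sum_coe_sort B]
    refine Finset.sum_congr rfl fun b' _ => ?_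
    beta_reduce
    rw [dif_pos b'.2]
  choose c hc using h'
  refine ⟨B, fun b b' => if b = b0 then (if b' = b0 then 1 else 0) else c b b', hb, hl, ?_, ?_, ?_⟩
  · simp
  · intro b hbb
    simp [hbb]
  · intro b
    by_cases hbb : b = b0
    · subst hbb
      rw [Finset.sum_eq_single b]
      · simp
      · intro b' _ hne
        simp [hne]
      · intro hn
        exact absurd hb hn
    · rw [← hc b]
      refine Finset.sum_congr rfl fun b' _ => ?_
      beta_reduce
      rw [if_neg hbb, hsm]

/-- A basis of the span of the values chosen among the values, with `th b0 = 1` in it (`exists_linearIndepOn_extension`);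
`K` acts on `ℂ` through `i0`. -/
theorem few_of_span {K bx : Type*} [Field K] [Fintype bx] (i0 : K →+* ℂ) (b0 : bx) (th : bx → ℂ) (hb0 : th b0 ≠ 0)
    (l : ℕ) (h : letI := i0.toAlgebra; Module.finrank K (Submodule.span K (Set.range th)) ≤ l) :
    Few i0 b0 th l := by
  classical
  letI := i0.toAlgebra
  obtain ⟨B, hB, hi, hs⟩ := span_basis i0 b0 th hb0
  refine span_few i0 b0 th l B hB ?_ hs
  refine le_trans ?_ h
  have h1 : Module.finrank K (Submodule.span K (Set.range fun b : (B : Set bx) => th b)) = Fintype.card (B : Set bx) :=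
    finrank_span_eq_card hi
  have h2 : Fintype.card (B : Set bx) = B.card := by simp
  rw [← h2, ← h1]
  haveI : FiniteDimensional K (Submodule.span K (Set.range th)) := FiniteDimensional.span_of_finite K (Set.finite_range th)
  refine Submodule.finrank_mono (Submodule.span_mono ?_)
  rintro _ ⟨b, rfl⟩
  exact ⟨b.1, rfl⟩

/-- The same from a bound for the independent families: if all sets of places with `K`-linearly independent values have
at most `l` elements. -/
theorem few_of_indep {K bx : Type*} [Field K] [Fintype bx] (i0 : K →+* ℂ) (b0 : bx) (th : bx → ℂ) (hb0 : th b0 ≠ 0)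
    (l : ℕ) (h : ∀ B : Finset bx, (∀ v : bx → K, ∑ b ∈ B, i0 (v b) * th b = 0 → ∀ b ∈ B, v b = 0) → B.card ≤ l) :
    Few i0 b0 th l := by
  classical
  letI := i0.toAlgebra
  obtain ⟨B, hB, hi, hs⟩ := span_basis i0 b0 th hb0
  refine span_few i0 b0 th l B hB (h B fun v hv => ?_) hs
  have h1 := linearIndepOn_finset_iff.1 hi v
  refine h1 ?_
  rw [← hv]
  refine Finset.sum_congr rfl fun b _ => Algebra.smul_def (v b) (th b)

end Pool.Agent.H57LW
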