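import Pool.Agent.Lib.H47E.Defs
import Pool.Agent.Lib.H57LW.Main
import Pool.Agent.Lib.H57LW.Span

/-!
# Translation to the interface of H47E
-/

open PowerSeries

namespace Pool.Agent.H57LW

theorem taylor_eq (z : ℂ) (F : ℂ⟦X⟧) : H47E.taylor z F = TT z F := by
  ext n
  unfold H47E.taylor TT
  rw [coeff_mk, coeff_mk]
  refine tsum_congr fun i => ?_
  rw [add_comm i n]
  ring

theorem row_eq {K lam : Type} [Field K] [Fintype lam] (H : lam → K⟦X⟧) {D : ℕ} (p : Fin D → lam → ℤ) (m : ℕ) :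
    ∑ a : Fin D, ∑ l : lam, C (p a l : K) * (C (m : K) + X) ^ (a : ℕ) * H l = RS m H p := by
  unfold RS
  refine Finset.sum_congr rfl fun a _ => Finset.sum_congr rfl fun l _ => ?_
  rw [map_intCast, map_natCast, mul_assoc]

theorem few_of_spanDim {K : Type} [Field K] (ι : K →+* ℂ) {bx : Type} [Fintype bx] (θ : bx → ℂ) (b0 : bx)
    (h0 : θ b0 ≠ 0) (l : ℕ)
    (h : ∃ B : Finset bx, B.card ≤ l ∧ ∀ b, ∃ κ : bx → K, θ b = ∑ b' ∈ B, ι (κ b') * θ b') : Few ι b0 θ l := by
  obtain ⟨B, hB, hκ⟩ := h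
  refine few_of_span ι b0 θ h0 l ?_
  letI := ι.toAlgebra
  classical
  have h1 : Submodule.span K (Set.range θ) ≤ Submodule.span K ((B.image θ : Finset ℂ) : Set ℂ) := by
    rw [Submodule.span_le]
    rintro _ ⟨b, rfl⟩
    obtain ⟨κ, hb⟩ := hκ b
    rw [hb]
    refine Submodule.sum_mem _ fun b' hb' => ?_
    have : ι (κ b') * θ b' = κ b' • θ b' := by
      rw [Algebra.smul_def]
      rfl
    rw [this]
    exact Submodule.smul_mem _ _ (Submodule.subset_span (by
      rw [Finset.coe_image]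
      exact ⟨b', hb', rfl⟩))
  have h2 : Module.finrank K (Submodule.span K ((B.image θ : Finset ℂ) : Set ℂ)) ≤ (B.image θ).card :=
    finrank_span_finset_le_card _
  exact ((Submodule.finrank_mono h1).trans h2).trans (Finset.card_image_le.trans hB)

end Pool.Agent.H57LW
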