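import Pool.Agent.Lib.H57LW.Defs

/-!
# A01: uniform constants for the series with small coefficients
-/

open Finset PowerSeries
open scoped Nat

namespace Pool.Agent.H57LW

theorem agc_mono {C C' : ℝ} (hC : 0 ≤ C) (h : C ≤ C') {F : ℂ⟦X⟧} (hF : AGC C F) : AGC C' F := by
  intro i
  refine (hF i).trans ?_
  exact div_le_div_of_nonneg_right (pow_le_pow_left₀ hC h _) (Real.sqrt_nonneg _)

theorem a01_nn {C : ℝ} {F : ℂ⟦X⟧} (hF : AGC C F) : 0 ≤ C := by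
  have h := (norm_nonneg _).trans (hF 0)
  simpa using h

/-- One constant for finitely many series. -/
theorem ag_unif {ι : Type*} [Finite ι] (F : ι → ℂ⟦X⟧) (h : ∀ i, AG (F i)) :
    ∃ C : ℝ, 1 ≤ C ∧ ∀ i, AGC C (F i) := by
  choose c hc using h
  obtain ⟨M, hM⟩ := Finite.bddAbove_range c
  refine ⟨max 1 M, le_max_left _ _, fun i => ?_⟩
  have h1 : AGC (c i) (F i) := hc i
  exact agc_mono (a01_nn h1) ((hM ⟨i, rfl⟩).trans (le_max_right _ _)) h1

theorem ag_smul (c : ℂ) {F : ℂ⟦X⟧} (h : AG F) : AG (PowerSeries.C c * F) := by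
  obtain ⟨C, hC⟩ := h
  have h0 : 0 ≤ C := a01_nn hC
  refine ⟨max 1 ‖c‖ * C, fun i => ?_⟩
  rw [PowerSeries.coeff_C_mul, norm_mul, mul_pow, mul_div_assoc]
  have h1 : ‖c‖ ≤ max 1 ‖c‖ ^ (i + 1) :=
    (le_max_right 1 ‖c‖).trans (le_self_pow₀ (le_max_left 1 ‖c‖) (Nat.succ_ne_zero i))
  exact mul_le_mul h1 (hC i) (norm_nonneg _) ((norm_nonneg c).trans h1)

end Pool.Agent.H57LW
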