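import Pool.Agent.Lib.H57LW.Defs

/-!
# A02: the weight `sqrt ((n+1)^D / n!)`
-/

open Finset PowerSeries
open scoped Nat

namespace Pool.Agent.H57LW

theorem wt_pos (D n : ℕ) : 0 < wt D n := by
  unfold wt
  have h : (0 : ℝ) < (n ! : ℝ) := by exact_mod_cast Nat.factorial_pos n
  exact Real.sqrt_pos.2 (by positivity)

/-- `n! / (n-j)! ≤ (n+1)^j ≤ (n+1)^D`. -/
theorem wt_ineq {D n j : ℕ} (hD : j ≤ D) (hn : j ≤ n) : 1 / √(((n - j)! : ℕ) : ℝ) ≤ wt D n := by
  unfold wt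
  have h1 : (0 : ℝ) < (n ! : ℝ) := by exact_mod_cast Nat.factorial_pos n
  have h2 : (0 : ℝ) < (((n - j)! : ℕ) : ℝ) := by exact_mod_cast Nat.factorial_pos (n - j)
  rw [one_div, ← Real.sqrt_inv]
  refine Real.sqrt_le_sqrt ?_
  rw [le_div_iff₀ h1, inv_mul_le_iff₀ h2]
  have h3 : n ! ≤ (n - j)! * (n + 1) ^ D := by
    calc n ! = (n - j)! * n.descFactorial j := (Nat.factorial_mul_descFactorial hn).symm
      _ ≤ (n - j)! * n ^ j := Nat.mul_le_mul le_rfl (Nat.descFactorial_le_pow n j)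
      _ ≤ (n - j)! * (n + 1) ^ j := Nat.mul_le_mul le_rfl (Nat.pow_le_pow_left (Nat.le_succ n) j)
      _ ≤ (n - j)! * (n + 1) ^ D := Nat.mul_le_mul le_rfl (Nat.pow_le_pow_right (Nat.succ_pos n) hD)
  exact_mod_cast h3

/-- From `log n! ≥ n log (n+1) - (n+1)`. -/
theorem log_wt_le (D n : ℕ) :
    Real.log (wt D n) ≤ (D : ℝ) / 2 * Real.log (n + 1) - 1 / 2 * n * Real.log (n + 1) + (n + 1) / 2 := by
  have h1 : (0 : ℝ) < (n ! : ℝ) := by exact_mod_cast Nat.factorial_pos n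
  have h2 : (0 : ℝ) < (n : ℝ) + 1 := by positivity
  have h3 := Real.pow_div_factorial_le_exp ((n : ℝ) + 1) h2.le n
  have h4 := Real.log_le_log (by positivity) h3
  rw [Real.log_exp, Real.log_div (by positivity) h1.ne', Real.log_pow] at h4
  unfold wt
  rw [Real.log_sqrt (by positivity), Real.log_div (by positivity) h1.ne', Real.log_pow]
  linarith

end Pool.Agent.H57LW
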