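import Pool.Agent.Lib.H57LW.A02

/-!
# A03: size of the coefficients of `∑ p_(a,l) (m + u)^a G_l`
-/

open Finset PowerSeries
open scoped Nat

namespace Pool.Agent.H57LW

theorem a03_step {C : ℝ} {F : ℂ⟦X⟧} (hF : AGC C F) (m a : ℕ) : ∀ (n : ℕ) (W : ℝ),
    (∀ j, j ≤ a → j ≤ n → C ^ (n - j + 1) / √((n - j)! : ℝ) ≤ W) → ‖coeff n (((m : ℂ⟦X⟧) + X) ^ a * F)‖ ≤ ((m : ℝ) + 1) ^ a * W := by
  induction a with
  | zero =>
    intro n W h
    rw [pow_zero, one_mul, pow_zero, one_mul]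
    exact (hF n).trans (h 0 le_rfl (Nat.zero_le n))
  | succ a ih =>
    intro n W h
    have e1 : ((m : ℂ⟦X⟧) + X) ^ (a + 1) * F = (m : ℂ⟦X⟧) * (((m : ℂ⟦X⟧) + X) ^ a * F) + X * (((m : ℂ⟦X⟧) + X) ^ a * F) := by
      ring
    have e2 : (m : ℂ⟦X⟧) = PowerSeries.C (m : ℂ) := (map_natCast (PowerSeries.C : ℂ →+* ℂ⟦X⟧) m).symm
    have h1 := ih n W fun j hj hn => h j (by omega) hn
    have h0 : 0 ≤ W := (norm_nonneg _).trans ((hF n).trans (h 0 (Nat.zero_le _) (Nat.zero_le n)))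
    rw [e1, map_add]
    have h2 : ‖coeff n ((m : ℂ⟦X⟧) * (((m : ℂ⟦X⟧) + X) ^ a * F))‖ ≤ m * (((m : ℝ) + 1) ^ a * W) := by
      have e3 : coeff n ((m : ℂ⟦X⟧) * (((m : ℂ⟦X⟧) + X) ^ a * F)) = (m : ℂ) * coeff n (((m : ℂ⟦X⟧) + X) ^ a * F) := by
        conv_lhs => rw [e2]
        rw [PowerSeries.coeff_C_mul, ← e2]
      rw [e3, norm_mul, Complex.norm_natCast]
      exact mul_le_mul_of_nonneg_left h1 (Nat.cast_nonneg m)
    have h3 : ‖coeff n (X * (((m : ℂ⟦X⟧) + X) ^ a * F))‖ ≤ ((m : ℝ) + 1) ^ a * W := by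
      cases n with
      | zero =>
        rw [PowerSeries.coeff_zero_X_mul, norm_zero]
        positivity
      | succ n =>
        rw [PowerSeries.coeff_succ_X_mul]
        refine ih n W fun j hj hn => ?_
        have h4 := h (j + 1) (by omega) (by omega)
        have e4 : n + 1 - (j + 1) = n - j := by omega
        rwa [e4] at h4
    calc _ ≤ _ := norm_add_le _ _
      _ ≤ m * (((m : ℝ) + 1) ^ a * W) + ((m : ℝ) + 1) ^ a * W := add_le_add h2 h3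
      _ = ((m : ℝ) + 1) ^ (a + 1) * W := by ring

/-- The coefficients of `(m + X)^a` are `binom(a,j) m^(a-j)`, with sum `(m+1)^a`; `wt_ineq`. -/
theorem shift_size {C : ℝ} (hC : 1 ≤ C) {F : ℂ⟦X⟧} (hF : AGC C F) (m D a n : ℕ) (ha : a < D) :
    ‖coeff n (((m : ℂ⟦X⟧) + X) ^ a * F)‖ ≤ ((m : ℝ) + 1) ^ a * (C ^ (n + 1) * wt D n) := by
  refine a03_step hF m a n _ fun j hj hn => ?_
  have hC0 : (0 : ℝ) ≤ C := zero_le_one.trans hC
  have h1 := wt_ineq (D := D) (n := n) (j := j) (by omega) hn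
  calc C ^ (n - j + 1) / √((n - j)! : ℝ) = C ^ (n - j + 1) * (1 / √(((n - j)! : ℕ) : ℝ)) := by rw [mul_one_div]
    _ ≤ C ^ (n + 1) * wt D n := mul_le_mul (pow_le_pow_right₀ hC (by omega)) h1 (by positivity) (by positivity)

theorem RS_size {lam : Type*} [Fintype lam] {C : ℝ} (hC : 1 ≤ C) (G : lam → ℂ⟦X⟧) (hG : ∀ l, AGC C (G l)) {D : ℕ}
    (p : Fin D → lam → ℤ) (Y : ℝ) (hp : ∀ a l, |(p a l : ℝ)| ≤ Y) (m n : ℕ) :
    ‖coeff n (RS m G p)‖ ≤ Y * (D * Fintype.card lam * ((m : ℝ) + 1) ^ D * (C ^ (n + 1) * wt D n)) := by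
  have hC0 : (0 : ℝ) ≤ C := zero_le_one.trans hC
  have hw : 0 ≤ wt D n := (wt_pos D n).le
  have h1 : ∀ a : Fin D, ∀ l, ‖coeff n ((p a l : ℂ⟦X⟧) * (((m : ℂ⟦X⟧) + X) ^ (a : ℕ) * G l))‖ ≤ Y * (((m : ℝ) + 1) ^ D * (C ^ (n + 1) * wt D n)) := by
    intro a l
    have e2 : (p a l : ℂ⟦X⟧) = PowerSeries.C (p a l : ℂ) := (map_intCast (PowerSeries.C : ℂ →+* ℂ⟦X⟧) (p a l)).symm
    rw [e2, PowerSeries.coeff_C_mul, norm_mul, Complex.norm_intCast]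
    have h2 := shift_size hC (hG l) m D a n a.2
    have h3 : ((m : ℝ) + 1) ^ (a : ℕ) ≤ ((m : ℝ) + 1) ^ D := by
      refine pow_le_pow_right₀ ?_ a.2.le
      linarith [Nat.cast_nonneg (α := ℝ) m]
    refine mul_le_mul (hp a l) (h2.trans (mul_le_mul_of_nonneg_right h3 (by positivity))) (norm_nonneg _) ((abs_nonneg _).trans (hp a l))
  unfold RS
  rw [map_sum]
  calc ‖∑ a : Fin D, coeff n (∑ l, (p a l : ℂ⟦X⟧) * (((m : ℂ⟦X⟧) + X) ^ (a : ℕ) * G l))‖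
      ≤ ∑ a : Fin D, ∑ l : lam, Y * (((m : ℝ) + 1) ^ D * (C ^ (n + 1) * wt D n)) := by
        refine norm_sum_le_of_le _ fun a _ => ?_
        rw [map_sum]
        exact norm_sum_le_of_le _ fun l _ => h1 a l
    _ = Y * (D * Fintype.card lam * ((m : ℝ) + 1) ^ D * (C ^ (n + 1) * wt D n)) := by
        rw [Finset.sum_const, Finset.sum_const, Finset.card_univ, Finset.card_univ, Fintype.card_fin, nsmul_eq_mul, nsmul_eq_mul]
        ring

end Pool.Agent.H57LW
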