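import Pool.Agent.Lib.H57LW.Defs

/-!
# A04: formal properties of `RS`
-/

open Finset PowerSeries
open scoped Nat

namespace Pool.Agent.H57LW

variable {K lam : Type*} [Field K] [Fintype lam]

theorem RS_map {L : Type*} [Field L] (σ : K →+* L) (m : ℕ) (H : lam → K⟦X⟧) {D : ℕ} (p : Fin D → lam → ℤ) :
    PowerSeries.map σ (RS m H p) = RS m (fun l => PowerSeries.map σ (H l)) p := by
  unfold RS
  simp only [map_sum, map_mul, map_pow, map_add, map_intCast, map_natCast, PowerSeries.map_X]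

theorem RS_mul (m : ℕ) (Xi : K⟦X⟧) (H : lam → K⟦X⟧) {D : ℕ} (p : Fin D → lam → ℤ) :
    RS m (fun l => Xi * H l) p = Xi * RS m H p := by
  unfold RS
  rw [Finset.mul_sum]
  refine Finset.sum_congr rfl fun a _ => ?_
  rw [Finset.mul_sum]
  refine Finset.sum_congr rfl fun l _ => ?_
  ring

theorem RS_comb {bx : Type*} [Fintype bx] (m : ℕ) (H : lam → bx → K⟦X⟧) (t : bx → K⟦X⟧) {D : ℕ}
    (p : Fin D → lam → ℤ) : ∑ b, RS m (fun l => H l b) p * t b = RS m (fun l => ∑ b, H l b * t b) p := by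
  unfold RS
  have h1 : ∀ b, (∑ a : Fin D, ∑ l, (p a l : K⟦X⟧) * (((m : K⟦X⟧) + X) ^ (a : ℕ) * H l b)) * t b =
      ∑ a : Fin D, ∑ l, (p a l : K⟦X⟧) * (((m : K⟦X⟧) + X) ^ (a : ℕ) * (H l b * t b)) := by
    intro b
    rw [Finset.sum_mul]
    refine Finset.sum_congr rfl fun a _ => ?_
    rw [Finset.sum_mul]
    refine Finset.sum_congr rfl fun l _ => ?_
    ring
  rw [Finset.sum_congr rfl fun b _ => h1 b, Finset.sum_comm]
  refine Finset.sum_congr rfl fun a _ => ?_
  rw [Finset.sum_comm]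
  refine Finset.sum_congr rfl fun l _ => ?_
  rw [Finset.mul_sum, Finset.mul_sum]

/-- The coefficients of `(m + X)^a` are integers, `d j ∣ d i` for `j ≤ i`. -/
theorem RS_int {d : ℕ → ℕ} (hd : ∀ i j, i ≤ j → d i ∣ d j) (H : lam → K⟦X⟧)
    (hH : ∀ i l, IsIntegral ℤ ((d i : K) * coeff i (H l))) (m : ℕ) {D : ℕ} (p : Fin D → lam → ℤ) (i : ℕ) :
    IsIntegral ℤ ((d i : K) * coeff i (RS m H p)) := by
  have hG : ∀ (G : ℤ⟦X⟧) (F : K⟦X⟧), (∀ i, IsIntegral ℤ ((d i : K) * coeff i F)) →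
      ∀ i, IsIntegral ℤ ((d i : K) * coeff i (PowerSeries.map (Int.castRingHom K) G * F)) := by
    intro G F hF i
    rw [PowerSeries.coeff_mul, Finset.mul_sum]
    refine IsIntegral.sum _ fun q hq => ?_
    have hq2 : q.2 ≤ i := by
      have := Finset.HasAntidiagonal.mem_antidiagonal.mp hq
      omega
    obtain ⟨c, hc⟩ := hd _ _ hq2
    have h1 : (d i : K) * (coeff q.1 (PowerSeries.map (Int.castRingHom K) G) * coeff q.2 F) =
        ((((c : ℤ) * coeff q.1 G : ℤ)) : K) * ((d q.2 : K) * coeff q.2 F) := by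
      rw [hc, PowerSeries.coeff_map]
      push_cast
      simp only [eq_intCast]
      ring
    rw [h1]
    refine IsIntegral.mul ?_ (hF q.2)
    have h2 := isIntegral_algebraMap (R := ℤ) (A := K) (x := (c : ℤ) * coeff q.1 G)
    rwa [eq_intCast] at h2
  have h3 : ∀ (a : Fin D) (l : lam), (p a l : K⟦X⟧) * (((m : K⟦X⟧) + X) ^ (a : ℕ) * H l) =
      PowerSeries.map (Int.castRingHom K) ((p a l : ℤ⟦X⟧) * ((m : ℤ⟦X⟧) + X) ^ (a : ℕ)) * H l := by
    intro a l
    simp only [map_mul, map_pow, map_add, map_intCast, map_natCast, PowerSeries.map_X]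
    ring
  unfold RS
  rw [map_sum, Finset.mul_sum]
  refine IsIntegral.sum _ fun a _ => ?_
  rw [map_sum, Finset.mul_sum]
  refine IsIntegral.sum _ fun l _ => ?_
  rw [h3]
  exact hG _ _ (fun i => hH i l) i

/-- The linear form `p ↦ coeff n (RS 0 H p)`. -/
theorem RS_zero_coeff (H : lam → K⟦X⟧) {D : ℕ} (p : Fin D → lam → ℤ) (n : ℕ) :
    coeff n (RS 0 H p) = ∑ q : Fin D × lam, (p q.1 q.2 : K) * coeff n ((X : K⟦X⟧) ^ (q.1 : ℕ) * H q.2) := by
  unfold RS
  rw [Fintype.sum_prod_type, map_sum]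
  refine Finset.sum_congr rfl fun a _ => ?_
  rw [map_sum]
  refine Finset.sum_congr rfl fun l _ => ?_
  have h1 : (p a l : K⟦X⟧) = PowerSeries.C (p a l : K) := (map_intCast (PowerSeries.C (R := K)) (p a l)).symm
  rw [h1, PowerSeries.coeff_C_mul, Nat.cast_zero, zero_add]

/-- A factor of order `e` and leading coefficient `1`. -/
theorem coeff_lead_mul {e : ℕ} {Xi : K⟦X⟧} (hXi : Lead e Xi) (R : K⟦X⟧) (i : ℕ) :
    coeff (i + e) (Xi * R) = coeff i R + ∑ j ∈ range i, coeff (e + (i - j)) Xi * coeff j R := by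
  rw [mul_comm, PowerSeries.coeff_mul,
    Finset.Nat.sum_antidiagonal_eq_sum_range_succ (fun j k => coeff j R * coeff k Xi) (i + e)]
  have h1 : ∑ j ∈ range (i + e).succ, coeff j R * coeff (i + e - j) Xi =
      ∑ j ∈ range (i + 1), coeff j R * coeff (i + e - j) Xi := by
    symm
    refine Finset.sum_subset (Finset.range_mono (by omega)) fun j _ hj => ?_
    have hj' : i < j := by
      by_contra hc
      exact hj (mem_range.mpr (by omega))
    by_cases he : e = 0
    · rename_i hj1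
      have := mem_range.mp hj1
      omega
    · rw [hXi.1 (i + e - j) (by omega), mul_zero]
  rw [h1, Finset.sum_range_succ, add_comm]
  have h2 : i + e - i = e := by omega
  rw [h2, hXi.2, mul_one]
  congr 1
  refine Finset.sum_congr rfl fun j hj => ?_
  have h3 : i + e - j = e + (i - j) := by
    have := mem_range.mp hj
    omega
  rw [h3, mul_comm]

end Pool.Agent.H57LW
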