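import Pool.Agent.Lib.H57LW.A02

/-!
# A05: denominators times sizes
-/

open Finset PowerSeries
open scoped Nat

namespace Pool.Agent.H57LW

theorem EE_mono {ε C C' : ℝ} (h : C ≤ C') (D S : ℕ) : EE ε C D S ≤ EE ε C' D S := by
  unfold EE
  have h1 : (0 : ℝ) ≤ (S : ℝ) + D + 1 := by positivity
  have h2 := mul_le_mul_of_nonneg_right h h1
  linarith

theorem EE_nonneg {ε C : ℝ} (hε : 0 ≤ ε) (hC : 0 ≤ C) (D S : ℕ) : 0 ≤ EE ε C D S := by
  unfold EE
  have h1 : 0 ≤ Real.log ((S : ℝ) + 1) := Real.log_nonneg (by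
    have : (0 : ℝ) ≤ S := Nat.cast_nonneg _
    linarith)
  positivity

/-- `log (d i) + log (wt D (i+e)) ≤ (D/2) log (S+1) + ε S log (S+1) + O(S + D + 1)`; `i + e + 1 ≤ (S+1)(e+1)`. -/
theorem den_wt {d : ℕ → ℕ} (hd : Den d) {ε : ℝ} (hε : 0 < ε) {C : ℝ} (hC : 1 ≤ C) (e : ℕ) :
    ∃ C' : ℝ, 0 ≤ C' ∧ ∀ S D i : ℕ, i ≤ S →
      (d i : ℝ) * (C ^ (i + e + 1) * wt D (i + e)) ≤ Real.exp (EE ε C' D S) := by
  obtain ⟨C1, hC1⟩ := hd.log ε hε
  have hlogC : 0 ≤ Real.log C := Real.log_nonneg hC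
  have hloge : 0 ≤ Real.log ((e : ℝ) + 1) := Real.log_nonneg (by
    have : (0 : ℝ) ≤ e := Nat.cast_nonneg _
    linarith)
  refine ⟨max C1 0 + (e + 1) * Real.log C + (e + 1) + Real.log ((e : ℝ) + 1), by positivity, ?_⟩
  intro S D i hi
  have hdi : (0 : ℝ) < d i := by exact_mod_cast hd.pos i
  have hw := wt_pos D (i + e)
  have hCp : 0 < C ^ (i + e + 1) := by positivity
  rw [← Real.log_le_iff_le_exp (by positivity), Real.log_mul hdi.ne' (by positivity), Real.log_mul hCp.ne' hw.ne',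
    Real.log_pow]
  have h1 := hC1 i
  have h2 := log_wt_le D (i + e)
  have hiS : (i : ℝ) ≤ S := by exact_mod_cast hi
  have hi0 : (0 : ℝ) ≤ i := Nat.cast_nonneg _
  have he0 : (0 : ℝ) ≤ e := Nat.cast_nonneg _
  have hD0 : (0 : ℝ) ≤ D := Nat.cast_nonneg _
  have hS0 : (0 : ℝ) ≤ S := Nat.cast_nonneg _
  push_cast at h2 ⊢
  have l1 : Real.log ((i : ℝ) + 1) ≤ Real.log ((S : ℝ) + 1) := Real.log_le_log (by positivity) (by linarith)
  have l2 : Real.log ((i : ℝ) + 1) ≤ Real.log ((i : ℝ) + e + 1) := Real.log_le_log (by positivity) (by linarith)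
  have l3 : Real.log ((i : ℝ) + e + 1) ≤ Real.log ((S : ℝ) + 1) + Real.log ((e : ℝ) + 1) := by
    rw [← Real.log_mul (by positivity) (by positivity)]
    exact Real.log_le_log (by positivity) (by nlinarith)
  have l4 : 0 ≤ Real.log ((i : ℝ) + 1) := Real.log_nonneg (by linarith)
  have l5 : 0 ≤ Real.log ((i : ℝ) + e + 1) := Real.log_nonneg (by linarith)
  have l6 : C1 * ((i : ℝ) + 1) ≤ max C1 0 * ((S : ℝ) + D + 1) := by
    calc C1 * ((i : ℝ) + 1) ≤ max C1 0 * ((i : ℝ) + 1) := mul_le_mul_of_nonneg_right (le_max_left _ _) (by positivity)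
      _ ≤ _ := mul_le_mul_of_nonneg_left (by linarith) (le_max_right _ _)
  have l7 : ε * i * Real.log ((i : ℝ) + 1) ≤ ε * S * Real.log ((S : ℝ) + 1) := by
    have := mul_le_mul hiS l1 l4 hS0
    have := mul_le_mul_of_nonneg_left this hε.le
    calc ε * i * Real.log ((i : ℝ) + 1) = ε * (i * Real.log ((i : ℝ) + 1)) := by ring
      _ ≤ ε * (S * Real.log ((S : ℝ) + 1)) := this
      _ = _ := by ring
  have l8 : (i : ℝ) * Real.log ((i : ℝ) + 1) ≤ ((i : ℝ) + e) * Real.log ((i : ℝ) + e + 1) :=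
    mul_le_mul (by linarith) l2 l4 (by positivity)
  have l9 : (D : ℝ) / 2 * Real.log ((i : ℝ) + e + 1) ≤ (D : ℝ) / 2 * Real.log ((S : ℝ) + 1) +
      (D : ℝ) * Real.log ((e : ℝ) + 1) := by
    have h3 := mul_le_mul_of_nonneg_left l3 (show 0 ≤ (D : ℝ) / 2 by positivity)
    have h4 : 0 ≤ (D : ℝ) / 2 * Real.log ((e : ℝ) + 1) := by positivity
    nlinarith
  have l10 : ((i : ℝ) + e + 1) * Real.log C ≤ (e + 1) * Real.log C * ((S : ℝ) + D + 1) := by
    have : (i : ℝ) + e + 1 ≤ (e + 1) * ((S : ℝ) + D + 1) := by nlinarith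
    calc ((i : ℝ) + e + 1) * Real.log C ≤ ((e + 1) * ((S : ℝ) + D + 1)) * Real.log C :=
          mul_le_mul_of_nonneg_right this hlogC
      _ = _ := by ring
  have l11 : ((i : ℝ) + e + 1) / 2 ≤ (e + 1) * ((S : ℝ) + D + 1) := by nlinarith
  have l12 : (D : ℝ) * Real.log ((e : ℝ) + 1) ≤ Real.log ((e : ℝ) + 1) * ((S : ℝ) + D + 1) := by nlinarith
  unfold EE
  have h3 : (1 / 2 + ε) * (i : ℝ) * Real.log ((i : ℝ) + 1) = 1 / 2 * (i * Real.log ((i : ℝ) + 1)) +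
      ε * i * Real.log ((i : ℝ) + 1) := by ring
  rw [h3] at h1
  have h4 : 1 / 2 * ((i : ℝ) + e) * Real.log ((i : ℝ) + e + 1) = 1 / 2 * (((i : ℝ) + e) * Real.log ((i : ℝ) + e + 1)) := by
    ring
  rw [h4] at h2
  have h5 : ((D : ℝ) / 2 + ε * S) * Real.log ((S : ℝ) + 1) = (D : ℝ) / 2 * Real.log ((S : ℝ) + 1) +
      ε * S * Real.log ((S : ℝ) + 1) := by ring
  rw [h5]
  have h6 : (max C1 0 + (e + 1) * Real.log C + (e + 1) + Real.log ((e : ℝ) + 1)) * ((S : ℝ) + D + 1) =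
      max C1 0 * ((S : ℝ) + D + 1) + (e + 1) * Real.log C * ((S : ℝ) + D + 1) + (e + 1) * ((S : ℝ) + D + 1) +
      Real.log ((e : ℝ) + 1) * ((S : ℝ) + D + 1) := by ring
  rw [h6]
  linarith

/-- A constant times `D` times a power (and `+ 2`) is absorbed in `EE`: `A D B^D + 2 ≤ exp (c (S + D + 1))`. -/
theorem absorb (A B : ℝ) (hA : 0 ≤ A) (hB : 0 ≤ B) (ε C : ℝ) (hε : 0 ≤ ε) :
    ∃ C' : ℝ, 0 ≤ C' ∧ ∀ S D : ℕ, A * D * B ^ D * Real.exp (EE ε C D S) + 2 ≤ Real.exp (EE ε C' D S) := by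
  refine ⟨|C| + A + B + 3, by positivity, ?_⟩
  intro S D
  obtain ⟨n, hn⟩ : ∃ n : ℝ, n = (S : ℝ) + D + 1 := ⟨_, rfl⟩
  have hS0 : (0 : ℝ) ≤ S := Nat.cast_nonneg _
  have hD0 : (0 : ℝ) ≤ D := Nat.cast_nonneg _
  have hn1 : 1 ≤ n := by rw [hn]; linarith
  have hDn : (D : ℝ) ≤ n := by rw [hn]; linarith
  have hbase : 0 ≤ ((D : ℝ) / 2 + ε * S) * Real.log ((S : ℝ) + 1) := by
    have h1 : 0 ≤ Real.log ((S : ℝ) + 1) := Real.log_nonneg (by linarith)
    positivity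
  obtain ⟨w, hw⟩ : ∃ w : ℝ, w = ((D : ℝ) / 2 + ε * S) * Real.log ((S : ℝ) + 1) := ⟨_, rfl⟩
  have e1 : EE ε C D S = w + C * n := by
    unfold EE
    rw [hw, hn]
  have e2 : EE ε (|C| + A + B + 3) D S = w + (|C| + A + B + 3) * n := by
    unfold EE
    rw [hw, hn]
  rw [e1, e2]
  rw [← hw] at hbase
  have hx : ∀ x : ℝ, x ≤ Real.exp x := fun x => by
    have := Real.add_one_le_exp x
    linarith
  have hBD : B ^ D ≤ Real.exp (B * D) := by
    have h1 : B ^ D ≤ (Real.exp B) ^ D := pow_le_pow_left₀ hB (hx B) D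
    rw [← Real.exp_nat_mul] at h1
    rwa [mul_comm] at h1
  have h1 : A * D * B ^ D * Real.exp (w + C * n) ≤ Real.exp (w + (|C| + A + B + 1) * n) := by
    have h2 : A * D * B ^ D ≤ Real.exp (A + D + B * D) := by
      rw [Real.exp_add, Real.exp_add]
      exact mul_le_mul (mul_le_mul (hx A) (hx D) hD0 (Real.exp_pos _).le) hBD (by positivity) (by positivity)
    calc A * D * B ^ D * Real.exp (w + C * n) ≤ Real.exp (A + D + B * D) * Real.exp (w + C * n) :=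
          mul_le_mul_of_nonneg_right h2 (Real.exp_pos _).le
      _ = Real.exp (A + D + B * D + (w + C * n)) := by rw [Real.exp_add (A + D + B * D)]
      _ ≤ _ := by
          apply Real.exp_le_exp.mpr
          have h3 : A ≤ A * n := by nlinarith
          have h4 : B * D ≤ B * n := mul_le_mul_of_nonneg_left hDn hB
          have h5 : C * n ≤ |C| * n := mul_le_mul_of_nonneg_right (le_abs_self C) (by linarith)
          nlinarith
  have hu : 0 ≤ w + (|C| + A + B + 1) * n := by positivity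
  have h6 : Real.exp (w + (|C| + A + B + 1) * n) + 2 ≤ Real.exp (w + (|C| + A + B + 3) * n) := by
    have h7 : w + (|C| + A + B + 3) * n = (w + (|C| + A + B + 1) * n) + 2 * n := by ring
    rw [h7, Real.exp_add (w + (|C| + A + B + 1) * n)]
    have h8 : 3 ≤ Real.exp (2 * n) := by
      have := Real.add_one_le_exp (2 * n)
      linarith
    have h9 : 1 ≤ Real.exp (w + (|C| + A + B + 1) * n) := Real.one_le_exp hu
    nlinarith
  linarith

end Pool.Agent.H57LW
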