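import Pool.Agent.Lib.H57LW.Defs

/-!
# A06: the box principle
-/

open Finset
open scoped Nat

namespace Pool.Agent.H57LW

/-- equal floors, close numbers -/
theorem a06_close {x y c δ : ℝ} (hδ : 0 < δ) (hx : -c ≤ x) (hy : -c ≤ y)
    (h : ⌊(x + c) * (2 / δ)⌋₊ = ⌊(y + c) * (2 / δ)⌋₊) : |x - y| < δ / 2 := by
  have h2 : 0 < 2 / δ := by positivity
  have hx0 : 0 ≤ (x + c) * (2 / δ) := mul_nonneg (by linarith) h2.le
  have hy0 : 0 ≤ (y + c) * (2 / δ) := mul_nonneg (by linarith) h2.le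
  have a1 := Nat.floor_le hx0
  have a2 := Nat.lt_floor_add_one ((x + c) * (2 / δ))
  have b1 := Nat.floor_le hy0
  have b2 := Nat.lt_floor_add_one ((y + c) * (2 / δ))
  rw [h] at a1 a2
  have e : (x - y) * (2 / δ) = (x + c) * (2 / δ) - (y + c) * (2 / δ) := by ring
  have h3 : |(x - y) * (2 / δ)| < 1 := by
    rw [e, abs_lt]
    constructor <;> linarith
  rw [abs_mul, abs_of_pos h2, mul_div_assoc', div_lt_one hδ] at h3
  linarith

/-- For `p ∈ {0, …, N}^ι` the real and imaginary parts of the forms are in `[-N B_j, N B_j]`: boxes of side `δ_j / 2`; their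
number is at most `(4 N B_j / δ_j + 1)^2 ≤ N^4` for every `j`; `N^(4 #J) ≤ N^#ι < (N+1)^#ι`. -/
theorem box {ι J : Type*} [Fintype ι] [Fintype J] [Nonempty ι] (u : J → ι → ℂ) (B δ : J → ℝ) (hδ : ∀ j, 0 < δ j)
    (hB : ∀ j, ∑ i, ‖u j i‖ ≤ B j) (N : ℕ) (hN : 1 ≤ N) (hX : ∀ j, 4 * B j / δ j + 1 ≤ N)
    (hc : 4 * Fintype.card J ≤ Fintype.card ι) :
    ∃ p : ι → ℤ, p ≠ 0 ∧ (∀ i, |p i| ≤ (N : ℤ)) ∧ ∀ j, ‖∑ i, (p i : ℂ) * u j i‖ < δ j := by
  classical
  have hBn : ∀ j, 0 ≤ B j := fun j => le_trans (Finset.sum_nonneg fun i _ => norm_nonneg _) (hB j)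
  have hN' : (1 : ℝ) ≤ N := by exact_mod_cast hN
  let L : (ι → ℕ) → J → ℂ := fun p j => ∑ i, (p i : ℂ) * u j i
  have hbd : ∀ p : ι → ℕ, (∀ i, p i ≤ N) → ∀ j, ‖L p j‖ ≤ N * B j := by
    intro p hp j
    calc ‖L p j‖ ≤ ∑ i, ‖(p i : ℂ) * u j i‖ := norm_sum_le _ _
      _ ≤ ∑ i, (N : ℝ) * ‖u j i‖ := by
          refine Finset.sum_le_sum fun i _ => ?_
          rw [norm_mul, Complex.norm_natCast]
          exact mul_le_mul_of_nonneg_right (by exact_mod_cast hp i) (norm_nonneg _)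
      _ = N * ∑ i, ‖u j i‖ := by rw [Finset.mul_sum]
      _ ≤ N * B j := mul_le_mul_of_nonneg_left (hB j) (Nat.cast_nonneg _)
  have hfl : ∀ (x : ℝ) (j : J), |x| ≤ N * B j → ⌊(x + N * B j) * (2 / δ j)⌋₊ < N ^ 2 := by
    intro x j hx
    have h1 := abs_le.1 hx
    have h2 : 0 < 2 / δ j := by
      have := hδ j
      positivity
    have h0 : 0 ≤ (x + N * B j) * (2 / δ j) := mul_nonneg (by linarith) h2.le
    rw [Nat.floor_lt h0]
    have h3 : (x + N * B j) * (2 / δ j) ≤ (2 * (N * B j)) * (2 / δ j) :=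
      mul_le_mul_of_nonneg_right (by linarith) h2.le
    have h4 : (2 * (N * B j)) * (2 / δ j) = N * (4 * B j / δ j) := by
      have := (hδ j).ne'
      field_simp
      ring
    have h5 : (N : ℝ) * (4 * B j / δ j) ≤ N * (N - 1) :=
      mul_le_mul_of_nonneg_left (by linarith [hX j]) (by linarith)
    push_cast
    nlinarith
  let f : (ι → ℕ) → (J → ℕ × ℕ) := fun p j =>
    (⌊((L p j).re + N * B j) * (2 / δ j)⌋₊, ⌊((L p j).im + N * B j) * (2 / δ j)⌋₊)
  have hcard : (Fintype.piFinset fun _ : J => range (N ^ 2) ×ˢ range (N ^ 2)).card <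
      (Fintype.piFinset fun _ : ι => range (N + 1)).card := by
    rw [Fintype.card_piFinset, Fintype.card_piFinset]
    simp only [prod_const, card_univ, card_product, card_range]
    have e : N ^ 2 * N ^ 2 = N ^ 4 := by ring
    rw [e, ← pow_mul]
    calc N ^ (4 * Fintype.card J) ≤ N ^ Fintype.card ι := Nat.pow_le_pow_right hN hc
      _ < (N + 1) ^ Fintype.card ι := Nat.pow_lt_pow_left (Nat.lt_succ_self N) Fintype.card_ne_zero
  have hmem : ∀ p : ι → ℕ, p ∈ (Fintype.piFinset fun _ : ι => range (N + 1)) → ∀ i, p i ≤ N := by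
    intro p hp i
    have := Fintype.mem_piFinset.1 hp i
    rw [mem_range] at this
    omega
  obtain ⟨p, hp, p', hp', hne, heq⟩ := Finset.exists_ne_map_eq_of_card_lt_of_maps_to hcard (f := f) (by
    intro p hp
    have hp1 := hmem p hp
    rw [mem_coe, Fintype.mem_piFinset]
    intro j
    rw [mem_product, mem_range, mem_range]
    exact ⟨hfl _ j (le_trans (Complex.abs_re_le_norm _) (hbd p hp1 j)),
      hfl _ j (le_trans (Complex.abs_im_le_norm _) (hbd p hp1 j))⟩)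
  have hp1 := hmem p hp
  have hp2 := hmem p' hp'
  refine ⟨fun i => (p i : ℤ) - (p' i : ℤ), ?_, ?_, ?_⟩
  · intro h
    apply hne
    funext i
    have := congrFun h i
    simp only [Pi.zero_apply] at this
    omega
  · intro i
    have a := hp1 i
    have b := hp2 i
    show |(p i : ℤ) - (p' i : ℤ)| ≤ (N : ℤ)
    rw [abs_le]
    constructor <;> omega
  · intro j
    have e : ∑ i, (((p i : ℤ) - (p' i : ℤ) : ℤ) : ℂ) * u j i = L p j - L p' j := by
      show _ = (∑ i, (p i : ℂ) * u j i) - ∑ i, (p' i : ℂ) * u j i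
      rw [← Finset.sum_sub_distrib]
      refine Finset.sum_congr rfl fun i _ => ?_
      push_cast
      ring
    rw [e]
    have hj := congrFun heq j
    have hj1 : ⌊((L p j).re + N * B j) * (2 / δ j)⌋₊ = ⌊((L p' j).re + N * B j) * (2 / δ j)⌋₊ :=
      congrArg Prod.fst hj
    have hj2 : ⌊((L p j).im + N * B j) * (2 / δ j)⌋₊ = ⌊((L p' j).im + N * B j) * (2 / δ j)⌋₊ :=
      congrArg Prod.snd hj
    have lo : ∀ (q : ι → ℕ), (∀ i, q i ≤ N) → -(N * B j) ≤ (L q j).re ∧ -(N * B j) ≤ (L q j).im := by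
      intro q hq
      exact ⟨(abs_le.1 (le_trans (Complex.abs_re_le_norm _) (hbd q hq j))).1,
        (abs_le.1 (le_trans (Complex.abs_im_le_norm _) (hbd q hq j))).1⟩
    have c1 := a06_close (hδ j) (lo p hp1).1 (lo p' hp2).1 hj1
    have c2 := a06_close (hδ j) (lo p hp1).2 (lo p' hp2).2 hj2
    have c3 := Complex.norm_le_abs_re_add_abs_im (L p j - L p' j)
    rw [Complex.sub_re, Complex.sub_im] at c3
    linarith

end Pool.Agent.H57LW
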