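import Pool.Agent.Lib.H57LW.A04

/-!
# A07: integers all of whose conjugates are small vanish
-/

open Finset PowerSeries
open scoped Nat

namespace Pool.Agent.H57LW

variable {K : Type*} [Field K] [NumberField K]

theorem a07_norm {x : K} (hx : IsIntegral ℤ x) : ∃ y : ℤ, (y : ℚ) = Algebra.norm ℚ x ∧
    ∏ σ : K →+* ℂ, ‖σ x‖ = |(y : ℝ)| := by
  have h1 : IsIntegral ℤ (Algebra.norm ℚ x) := Algebra.isIntegral_norm ℚ hx
  obtain ⟨y, hy⟩ := IsIntegrallyClosed.isIntegral_iff.1 h1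
  have hy' : (y : ℚ) = Algebra.norm ℚ x := by
    rw [← hy]
    rfl
  refine ⟨y, hy', ?_⟩
  have h2 := Algebra.norm_eq_prod_embeddings ℚ ℂ x
  rw [← hy'] at h2
  have h3 : ∏ σ : K →ₐ[ℚ] ℂ, σ x = ∏ σ : K →+* ℂ, σ x := by
    refine Fintype.prod_equiv (RingHom.equivRatAlgHom (R := K) (S := ℂ)).symm _ _ fun σ => ?_
    rfl
  rw [h3] at h2
  rw [← norm_prod, ← h2]
  simp

/-- The norm is an integer. -/
theorem norm_small {x : K} (hx : IsIntegral ℤ x) (h : ∀ σ : K →+* ℂ, ‖σ x‖ < 1) : x = 0 := by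
  obtain ⟨y, hy1, hy2⟩ := a07_norm hx
  have h1 : |(y : ℝ)| < 1 := by
    classical
    rw [← hy2]
    have hne : Nonempty (K →+* ℂ) := inferInstance
    obtain ⟨σ0⟩ := hne
    rw [← Finset.mul_prod_erase univ (fun σ : K →+* ℂ => ‖σ x‖) (mem_univ σ0)]
    have h2 : ∏ σ ∈ univ.erase σ0, ‖σ x‖ ≤ 1 :=
      Finset.prod_le_one (fun _ _ => norm_nonneg _) (fun σ _ => (h σ).le)
    have h3 : 0 ≤ ∏ σ ∈ univ.erase σ0, ‖σ x‖ := Finset.prod_nonneg fun _ _ => norm_nonneg _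
    calc ‖σ0 x‖ * ∏ σ ∈ univ.erase σ0, ‖σ x‖ ≤ ‖σ0 x‖ * 1 := mul_le_mul_of_nonneg_left h2 (norm_nonneg _)
      _ = ‖σ0 x‖ := mul_one _
      _ < 1 := h σ0
  have h4 : |y| < 1 := by exact_mod_cast h1
  have h5 : y = 0 := Int.abs_lt_one_iff.1 h4
  rw [h5, Int.cast_zero] at hy1
  exact (Algebra.norm_eq_zero_iff).1 hy1.symm

theorem prod_ge_one {x : K} (hx : IsIntegral ℤ x) (h : x ≠ 0) : 1 ≤ ∏ σ : K →+* ℂ, ‖σ x‖ := by
  obtain ⟨y, hy1, hy2⟩ := a07_norm hx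
  rw [hy2]
  have h5 : y ≠ 0 := by
    intro h0
    rw [h0, Int.cast_zero] at hy1
    exact h ((Algebra.norm_eq_zero_iff).1 hy1.symm)
  exact_mod_cast Int.one_le_abs h5

/-- Strong induction on `i`: `coeff (i+e) (Xi * F) = coeff i F` if the lower coefficients of `F` vanish (`coeff_lead_mul`). -/
theorem van {e : ℕ} {Xi F : K⟦X⟧} (hXi : Lead e Xi) (d : ℕ → ℕ)
    (hF : ∀ i, IsIntegral ℤ ((d i : K) * coeff i F)) (hd : ∀ i, 0 < d i) (S : ℕ)
    (h : ∀ i, i < S → ∀ σ : K →+* ℂ, (d i : ℝ) * ‖σ (coeff (i + e) (Xi * F))‖ < 1) :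
    ∀ i, i < S → coeff i F = 0 := by
  intro i
  induction i using Nat.strong_induction_on with
  | _ i ih =>
    intro hi
    have h1 : coeff (i + e) (Xi * F) = coeff i F := by
      rw [coeff_lead_mul hXi F i, Finset.sum_eq_zero, add_zero]
      intro j hj
      rw [mem_range] at hj
      rw [ih j hj (hj.trans hi), mul_zero]
    have h2 : (d i : K) * coeff i F = 0 := by
      apply norm_small (hF i)
      intro σ
      rw [map_mul, map_natCast, norm_mul, Complex.norm_natCast, ← h1]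
      exact h i hi σ
    rcases mul_eq_zero.1 h2 with h3 | h3
    · exact absurd (Nat.cast_eq_zero.1 h3) (hd i).ne'
    · exact h3

end Pool.Agent.H57LW
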