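import Pool.Agent.Lib.H57LW.A01
import Pool.Agent.Lib.H57LW.A03
import Pool.Agent.Lib.H57LW.A05
import Pool.Agent.Lib.H57LW.A06
import Pool.Agent.Lib.H57LW.A07

/-!
# A08: the auxiliary function
-/

open Finset PowerSeries
open scoped Nat

namespace Pool.Agent.H57LW

/-- `box` with `J = (K →+* ℂ) × Fin S`, `ι = Fin D × lam`, `u (σ, i) (a, l) = σ (coeff (i+e) (X^a * Psa l))`, `δ = 1 / d i`,
`B = D #lam C^(i+e+1) wt D (i+e)` (`shift_size` with `m = 0`), `N = ⌈exp (..)⌉` (`den_wt`, `absorb`); then `van`. -/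
theorem aux {K : Type*} [Field K] [NumberField K] {lam : Type*} [Fintype lam] [Nonempty lam] (Psa Psp : lam → K⟦X⟧)
    (e : ℕ) (Xi : K⟦X⟧) (hXi : Lead e Xi) (hPs : ∀ l, Psa l = Xi * Psp l)
    (hAG : ∀ (σ : K →+* ℂ) l, AG (PowerSeries.map σ (Psa l))) (d : ℕ → ℕ) (hd : Den d)
    (hint : ∀ i l, IsIntegral ℤ ((d i : K) * coeff i (Psp l))) (ε : ℝ) (hε : 0 < ε) :
    ∃ C : ℝ, 0 ≤ C ∧ ∀ D S : ℕ, 1 ≤ D → 4 * (Module.finrank ℚ K * S) ≤ D * Fintype.card lam →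
      ∃ (N : ℕ) (p : Fin D → lam → ℤ), p ≠ 0 ∧ (∀ a l, |p a l| ≤ (N : ℤ)) ∧ (N : ℝ) ≤ Real.exp (EE ε C D S) ∧
        ∀ i, i < S → coeff i (RS 0 Psp p) = 0 := by
  obtain ⟨C0, hC0, hAGC⟩ := ag_unif (fun q : (K →+* ℂ) × lam => PowerSeries.map q.1 (Psa q.2)) (fun q => hAG q.1 q.2)
  obtain ⟨C1, hC1, h1⟩ := den_wt hd hε hC0 e
  obtain ⟨C2, hC2, h2⟩ := absorb (4 * Fintype.card lam) 1 (by positivity) zero_le_one ε C1 hε.le
  refine ⟨C2, hC2, fun D S hD hDS => ?_⟩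
  have : Nonempty (Fin D) := ⟨⟨0, hD⟩⟩
  obtain ⟨u, hu⟩ : ∃ u : (K →+* ℂ) × Fin S → Fin D × lam → ℂ, u = fun j q =>
      j.1 (coeff ((j.2 : ℕ) + e) ((X : K⟦X⟧) ^ (q.1 : ℕ) * Psa q.2)) := ⟨_, rfl⟩
  obtain ⟨B, hB⟩ : ∃ B : (K →+* ℂ) × Fin S → ℝ, B = fun j =>
      D * Fintype.card lam * (C0 ^ ((j.2 : ℕ) + e + 1) * wt D ((j.2 : ℕ) + e)) := ⟨_, rfl⟩
  obtain ⟨δ, hδ⟩ : ∃ δ : (K →+* ℂ) × Fin S → ℝ, δ = fun j => 1 / (d (j.2 : ℕ) : ℝ) := ⟨_, rfl⟩
  obtain ⟨N, hN⟩ : ∃ N : ℕ, N = ⌈4 * (Fintype.card lam : ℝ) * D * 1 ^ D * Real.exp (EE ε C1 D S)⌉₊ + 1 := ⟨_, rfl⟩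
  have hd0 : ∀ i, (0 : ℝ) < d i := fun i => by exact_mod_cast hd.pos i
  have hbox := box u B δ (fun j => by
      rw [hδ]
      exact one_div_pos.2 (hd0 _)) (fun j => by
      calc ∑ i, ‖u j i‖ ≤ ∑ i : Fin D × lam, (C0 ^ ((j.2 : ℕ) + e + 1) * wt D ((j.2 : ℕ) + e)) := by
            refine Finset.sum_le_sum fun q _ => ?_
            have h3 := shift_size hC0 (hAGC (j.1, q.2)) 0 D (q.1 : ℕ) ((j.2 : ℕ) + e) q.1.2
            rw [Nat.cast_zero, Nat.cast_zero, zero_add, zero_add, one_pow, one_mul] at h3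
            have h4 : u j q = coeff ((j.2 : ℕ) + e) ((X : ℂ⟦X⟧) ^ (q.1 : ℕ) * PowerSeries.map j.1 (Psa q.2)) := by
              rw [hu]
              show j.1 (coeff ((j.2 : ℕ) + e) ((X : K⟦X⟧) ^ (q.1 : ℕ) * Psa q.2)) = _
              rw [← PowerSeries.coeff_map, map_mul, map_pow, PowerSeries.map_X]
            rw [h4]
            exact h3
        _ = B j := by
            rw [hB, Finset.sum_const, Finset.card_univ, Fintype.card_prod, Fintype.card_fin, nsmul_eq_mul]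
            push_cast
            ring) N (by omega) (fun j => by
      have h3 := h1 S D (j.2 : ℕ) j.2.2.le
      have h4 : 4 * B j / δ j + 1 = 4 * (Fintype.card lam : ℝ) * D *
          ((d (j.2 : ℕ) : ℝ) * (C0 ^ ((j.2 : ℕ) + e + 1) * wt D ((j.2 : ℕ) + e))) + 1 := by
        rw [hB, hδ]
        simp only [div_div_eq_mul_div, div_one]
        ring
      rw [h4]
      have h5 : 4 * (Fintype.card lam : ℝ) * D *
          ((d (j.2 : ℕ) : ℝ) * (C0 ^ ((j.2 : ℕ) + e + 1) * wt D ((j.2 : ℕ) + e))) ≤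
          4 * (Fintype.card lam : ℝ) * D * 1 ^ D * Real.exp (EE ε C1 D S) := by
        rw [one_pow, mul_one]
        exact mul_le_mul_of_nonneg_left h3 (by positivity)
      have h6 := Nat.le_ceil (4 * (Fintype.card lam : ℝ) * D * 1 ^ D * Real.exp (EE ε C1 D S))
      rw [hN]
      push_cast
      linarith) (by
      rw [Fintype.card_prod, Fintype.card_prod, Fintype.card_fin, Fintype.card_fin, NumberField.Embeddings.card K ℂ]
      exact hDS)
  obtain ⟨p, hp0, hpN, hpu⟩ := hbox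
  refine ⟨N, fun a l => p (a, l), ?_, fun a l => hpN (a, l), ?_, ?_⟩
  · intro h0
    apply hp0
    funext q
    exact congrFun (congrFun h0 q.1) q.2
  · have h3 : (N : ℝ) ≤ 4 * (Fintype.card lam : ℝ) * D * 1 ^ D * Real.exp (EE ε C1 D S) + 2 := by
      have h4 := (Nat.ceil_lt_add_one (show 0 ≤ 4 * (Fintype.card lam : ℝ) * D * 1 ^ D * Real.exp (EE ε C1 D S) by
        positivity)).le
      rw [hN]
      push_cast at h4 ⊢
      linarith
    exact h3.trans (h2 S D)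
  · refine van hXi d (fun i => RS_int hd.dvd Psp hint 0 (fun a l => p (a, l)) i) hd.pos S ?_
    intro i hi σ
    have h3 := hpu (σ, ⟨i, hi⟩)
    have h4 : ∑ q : Fin D × lam, (p q : ℂ) * u (σ, ⟨i, hi⟩) q =
        σ (coeff (i + e) (Xi * RS 0 Psp (fun a l => p (a, l)))) := by
      rw [← RS_mul 0 Xi Psp (fun a l => p (a, l))]
      have h5 : (fun l => Xi * Psp l) = Psa := by
        funext l
        exact (hPs l).symm
      rw [h5, RS_zero_coeff Psa (fun a l => p (a, l)) (i + e), map_sum, hu]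
      refine Finset.sum_congr rfl fun q _ => ?_
      rw [map_mul, map_intCast]
    rw [h4] at h3
    have h6 : δ (σ, ⟨i, hi⟩) = 1 / (d i : ℝ) := by
      rw [hδ]
    rw [h6, lt_div_iff₀ (hd0 i)] at h3
    rw [mul_comm]
    exact h3

end Pool.Agent.H57LW
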