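import Pool.Agent.Lib.H57LW.A01
import Pool.Agent.Lib.H57LW.A03
import Pool.Agent.Lib.H57LW.A04
import Pool.Agent.Lib.H57LW.A05

/-!
# A09: sizes of the rows
-/

open Finset PowerSeries
open scoped Nat

namespace Pool.Agent.H57LW

/-- `RS_map`, `RS_size`, `den_wt`, `absorb`. -/
theorem rows {K : Type*} [Field K] [NumberField K] {lam ix : Type*} [Fintype lam] [Finite ix] (m0 e : ℕ)
    (Ha : ix → lam → K⟦X⟧) (hAG : ∀ (σ : K →+* ℂ) k l, AG (PowerSeries.map σ (Ha k l))) (d : ℕ → ℕ) (hd : Den d)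
    (ε : ℝ) (hε : 0 < ε) :
    ∃ C : ℝ, 0 ≤ C ∧ ∀ (D S N : ℕ) (p : Fin D → lam → ℤ), (∀ a l, |p a l| ≤ (N : ℤ)) → ∀ m, m ≤ m0 → ∀ i, i ≤ S →
      ∀ (σ : K →+* ℂ) (k : ix), (d i : ℝ) * ‖σ (coeff (i + e) (RS m (Ha k) p))‖ ≤ N * Real.exp (EE ε C D S) := by
  obtain ⟨C1, hC1, h1⟩ := ag_unif (fun q : (K →+* ℂ) × ix × lam => PowerSeries.map q.1 (Ha q.2.1 q.2.2))
    (fun q => hAG q.1 q.2.1 q.2.2)
  obtain ⟨C2, hC2, h2⟩ := den_wt hd hε hC1 e
  obtain ⟨C3, hC3, h3⟩ := absorb (Fintype.card lam) ((m0 : ℝ) + 1) (Nat.cast_nonneg _) (by positivity) ε C2 hε.le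
  refine ⟨C3, hC3, fun D S N p hp m hm i hi σ k => ?_⟩
  have e1 : σ (coeff (i + e) (RS m (Ha k) p)) = coeff (i + e) (RS m (fun l => PowerSeries.map σ (Ha k l)) p) := by
    rw [← RS_map, PowerSeries.coeff_map]
  have hp' : ∀ a l, |(p a l : ℝ)| ≤ (N : ℝ) := by
    intro a l
    have := hp a l
    exact_mod_cast this
  have e2 := RS_size hC1 (fun l => PowerSeries.map σ (Ha k l)) (fun l => h1 (σ, k, l)) p N hp' m (i + e)
  rw [e1]
  have hw : 0 ≤ wt D (i + e) := Real.sqrt_nonneg _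
  have hm1 : ((m : ℝ) + 1) ^ D ≤ ((m0 : ℝ) + 1) ^ D := by
    have : (m : ℝ) ≤ m0 := by exact_mod_cast hm
    gcongr
  have hN : (0 : ℝ) ≤ N := Nat.cast_nonneg _
  have hd0 : (0 : ℝ) ≤ d i := Nat.cast_nonneg _
  have hC10 : (0 : ℝ) ≤ C1 := by linarith
  have e3 := h2 S D i hi
  have e4 := h3 S D
  calc (d i : ℝ) * ‖coeff (i + e) (RS m (fun l => PowerSeries.map σ (Ha k l)) p)‖
      ≤ (d i : ℝ) * (N * (D * Fintype.card lam * ((m : ℝ) + 1) ^ D * (C1 ^ (i + e + 1) * wt D (i + e)))) :=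
        mul_le_mul_of_nonneg_left e2 hd0
    _ = N * (Fintype.card lam * D * ((m : ℝ) + 1) ^ D * ((d i : ℝ) * (C1 ^ (i + e + 1) * wt D (i + e)))) := by ring
    _ ≤ N * (Fintype.card lam * D * ((m0 : ℝ) + 1) ^ D * Real.exp (EE ε C2 D S)) := by
        refine mul_le_mul_of_nonneg_left ?_ hN
        refine mul_le_mul (mul_le_mul_of_nonneg_left hm1 (by positivity)) e3 (by positivity) (by positivity)
    _ ≤ N * Real.exp (EE ε C3 D S) := by
        refine mul_le_mul_of_nonneg_left ?_ hN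
        linarith

end Pool.Agent.H57LW
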