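import Pool.Agent.Lib.H57LW.A01
import Pool.Agent.Lib.H57LW.A04

/-!
# A10: Taylor series at `m`
-/

open Finset PowerSeries
open scoped Nat

namespace Pool.Agent.H57LW

private theorem a10_summable (a : ℝ) : Summable fun i : ℕ => a ^ i / √(i ! : ℝ) := by
  have h1 : Summable fun i : ℕ => ((4 * a ^ 2) ^ i / (i ! : ℝ) + (1 / 4 : ℝ) ^ i) / 2 := by
    refine Summable.div_const ?_ 2
    exact (Real.summable_pow_div_factorial _).add
      (summable_geometric_of_lt_one (by norm_num) (by norm_num))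
  refine Summable.of_norm_bounded h1 fun i => ?_
  have hf : (0 : ℝ) < (i ! : ℝ) := by exact_mod_cast Nat.factorial_pos i
  have hs : 0 < √(i ! : ℝ) := Real.sqrt_pos.2 hf
  rw [norm_div, norm_pow, Real.norm_eq_abs, Real.norm_eq_abs, abs_of_pos hs]
  have hx : ((2 * |a|) ^ i / √(i ! : ℝ)) ^ 2 = (4 * a ^ 2) ^ i / (i ! : ℝ) := by
    rw [div_pow, Real.sq_sqrt hf.le, ← pow_mul, mul_comm i 2, pow_mul, mul_pow, sq_abs]
    norm_num
  have hy : ((1 / 2 : ℝ) ^ i) ^ 2 = (1 / 4 : ℝ) ^ i := by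
    rw [← pow_mul, mul_comm i 2, pow_mul]
    norm_num
  have hxy : |a| ^ i / √(i ! : ℝ) = ((2 * |a|) ^ i / √(i ! : ℝ)) * (1 / 2 : ℝ) ^ i := by
    rw [mul_pow, div_pow, one_pow]
    field_simp
  rw [hxy, ← hx, ← hy]
  nlinarith [sq_nonneg ((2 * |a|) ^ i / √(i ! : ℝ) - (1 / 2 : ℝ) ^ i)]

private theorem a10_nonneg {F : ℂ⟦X⟧} {C : ℝ} (hC : ∀ i : ℕ, ‖coeff i F‖ ≤ C ^ (i + 1) / √(i ! : ℝ)) :
    0 ≤ C := by
  have h := (norm_nonneg _).trans (hC 0)
  simpa using h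

private theorem a10_fact (n i : ℕ) : √(i ! : ℝ) ≤ √((n + i)! : ℝ) := by
  apply Real.sqrt_le_sqrt
  exact_mod_cast Nat.factorial_le (Nat.le_add_left i n)

/-- The series defining `TT` converge absolutely. -/
theorem TT_summable {F : ℂ⟦X⟧} (hF : AG F) (m : ℂ) (n : ℕ) :
    Summable fun i : ℕ => coeff (n + i) F * ((n + i).choose n : ℂ) * m ^ i := by
  obtain ⟨C, hC⟩ := hF
  have hC0 := a10_nonneg hC
  have h1 : Summable fun i : ℕ => (C ^ (n + 1) * 2 ^ n) * ((C * 2 * ‖m‖) ^ i / √(i ! : ℝ)) :=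
    (a10_summable _).mul_left _
  refine Summable.of_norm_bounded h1 fun i => ?_
  have hf : (0 : ℝ) < (i ! : ℝ) := by exact_mod_cast Nat.factorial_pos i
  have hs : 0 < √(i ! : ℝ) := Real.sqrt_pos.2 hf
  rw [norm_mul, norm_mul, norm_pow, Complex.norm_natCast]
  have hc : ‖coeff (n + i) F‖ ≤ C ^ (n + i + 1) / √(i ! : ℝ) := by
    refine (hC (n + i)).trans ?_
    exact div_le_div_of_nonneg_left (pow_nonneg hC0 _) hs (a10_fact n i)
  have hb : (((n + i).choose n : ℕ) : ℝ) ≤ 2 ^ (n + i) := by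
    exact_mod_cast Nat.choose_le_two_pow (n + i) n
  calc ‖coeff (n + i) F‖ * (((n + i).choose n : ℕ) : ℝ) * ‖m‖ ^ i
      ≤ (C ^ (n + i + 1) / √(i ! : ℝ)) * 2 ^ (n + i) * ‖m‖ ^ i := by
        gcongr
    _ = (C ^ (n + 1) * 2 ^ n) * ((C * 2 * ‖m‖) ^ i / √(i ! : ℝ)) := by
        rw [mul_pow, mul_pow]
        ring

theorem AG_X_mul {F : ℂ⟦X⟧} (hF : AG F) : AG (X * F) := by
  obtain ⟨C, hC⟩ := hF
  have hC0 := a10_nonneg hC
  refine ⟨2 * C + 1, fun i => ?_⟩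
  cases i with
  | zero =>
    simp
    positivity
  | succ i =>
    rw [PowerSeries.coeff_succ_X_mul]
    refine (hC i).trans ?_
    have hf : (0 : ℝ) < (i ! : ℝ) := by exact_mod_cast Nat.factorial_pos i
    have hs : 0 < √(i ! : ℝ) := Real.sqrt_pos.2 hf
    have hi : (0 : ℝ) < (i : ℝ) + 1 := by positivity
    have hs' : √((i + 1)! : ℝ) = √((i : ℝ) + 1) * √(i ! : ℝ) := by
      rw [Nat.factorial_succ, Nat.cast_mul, Real.sqrt_mul (by positivity)]
      push_cast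
      rfl
    rw [hs', div_le_div_iff₀ hs (by positivity)]
    have h2 : √((i : ℝ) + 1) ≤ 2 ^ (i + 1) := by
      have h3 : (i : ℝ) + 1 ≤ 2 ^ (i + 1) := by
        exact_mod_cast (Nat.lt_two_pow_self (n := i + 1)).le
      have h4 : √((i : ℝ) + 1) ≤ (i : ℝ) + 1 := by
        rw [Real.sqrt_le_left (by positivity)]
        nlinarith
      exact h4.trans h3
    have h5 : C ^ (i + 1) * 2 ^ (i + 1) ≤ (2 * C + 1) ^ (i + 1 + 1) := by
      calc C ^ (i + 1) * 2 ^ (i + 1) = (2 * C) ^ (i + 1) := by rw [mul_pow]; ring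
        _ ≤ (2 * C + 1) ^ (i + 1) := by gcongr; linarith
        _ ≤ (2 * C + 1) ^ (i + 1 + 1) := pow_le_pow_right₀ (by linarith) (Nat.le_succ _)
    calc C ^ (i + 1) * (√((i : ℝ) + 1) * √(i ! : ℝ)) ≤ C ^ (i + 1) * (2 ^ (i + 1) * √(i ! : ℝ)) := by
          gcongr
      _ = (C ^ (i + 1) * 2 ^ (i + 1)) * √(i ! : ℝ) := by ring
      _ ≤ (2 * C + 1) ^ (i + 1 + 1) * √(i ! : ℝ) := by gcongr

theorem AG_add {F G : ℂ⟦X⟧} (hF : AG F) (hG : AG G) : AG (F + G) := by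
  obtain ⟨C, hC⟩ := hF
  obtain ⟨D, hD⟩ := hG
  have hC0 := a10_nonneg hC
  have hD0 := a10_nonneg hD
  refine ⟨C + D, fun i => ?_⟩
  rw [map_add]
  refine (norm_add_le _ _).trans ((add_le_add (hC i) (hD i)).trans ?_)
  rw [← add_div]
  have hf : (0 : ℝ) < (i ! : ℝ) := by exact_mod_cast Nat.factorial_pos i
  have hs : 0 < √(i ! : ℝ) := Real.sqrt_pos.2 hf
  exact div_le_div_of_nonneg_right (pow_add_pow_le hC0 hD0 (Nat.succ_ne_zero i)) hs.le

theorem TT_add {F G : ℂ⟦X⟧} (hF : AG F) (hG : AG G) (m : ℂ) : TT m (F + G) = TT m F + TT m G := by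
  ext n
  rw [map_add, TT, TT, TT, coeff_mk, coeff_mk, coeff_mk,
    ← (TT_summable hF m n).tsum_add (TT_summable hG m n)]
  refine tsum_congr fun i => ?_
  rw [map_add]
  ring

theorem TT_smul (c : ℂ) (F : ℂ⟦X⟧) (m : ℂ) : TT m (PowerSeries.C c * F) = PowerSeries.C c * TT m F := by
  ext n
  rw [coeff_C_mul, TT, TT, coeff_mk, coeff_mk, ← tsum_mul_left]
  refine tsum_congr fun i => ?_
  rw [coeff_C_mul]
  ring

/-- Pascal's rule. -/
theorem TT_X_mul {F : ℂ⟦X⟧} (hF : AG F) (m : ℂ) : TT m (X * F) = (PowerSeries.C m + X) * TT m F := by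
  ext n
  rw [add_mul, map_add, coeff_C_mul]
  have hXF := TT_summable (AG_X_mul hF) m
  cases n with
  | zero =>
    rw [PowerSeries.coeff_zero_X_mul, add_zero, TT, TT, coeff_mk, coeff_mk, (hXF 0).tsum_eq_zero_add,
      ← tsum_mul_left]
    simp only [zero_add, PowerSeries.coeff_zero_X_mul, zero_mul, Nat.choose_zero_right,
      Nat.cast_one, mul_one]
    refine tsum_congr fun i => ?_
    rw [PowerSeries.coeff_succ_X_mul, pow_succ]
    ring
  | succ k =>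
    rw [PowerSeries.coeff_succ_X_mul, TT, TT, coeff_mk, coeff_mk, coeff_mk]
    have h1 := TT_summable hF m k
    have h2 := TT_summable hF m (k + 1)
    have h3 : Summable fun i : ℕ => coeff (k + i) F * (((k + i).choose (k + 1) : ℕ) : ℂ) * m ^ i := by
      rw [← summable_nat_add_iff 1]
      refine (h2.mul_left m).congr fun i => ?_
      rw [show k + (i + 1) = k + 1 + i by ring, pow_succ]
      ring
    have h4 : ∑' i : ℕ, coeff (k + i) F * (((k + i).choose (k + 1) : ℕ) : ℂ) * m ^ i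
        = m * ∑' i : ℕ, coeff (k + 1 + i) F * (((k + 1 + i).choose (k + 1) : ℕ) : ℂ) * m ^ i := by
      rw [h3.tsum_eq_zero_add, ← tsum_mul_left]
      simp only [Nat.add_zero, Nat.choose_succ_self, Nat.cast_zero, mul_zero, zero_mul, zero_add]
      refine tsum_congr fun i => ?_
      rw [show k + (i + 1) = k + 1 + i by ring, pow_succ]
      ring
    rw [← h4, add_comm (∑' i : ℕ, coeff (k + i) F * (((k + i).choose (k + 1) : ℕ) : ℂ) * m ^ i), ← h1.tsum_add h3]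
    refine tsum_congr fun i => ?_
    rw [show k + 1 + i = (k + i) + 1 by ring, PowerSeries.coeff_succ_X_mul, Nat.choose_succ_succ]
    push_cast
    ring

private theorem a10_AG_zero : AG 0 := ⟨0, fun i => by simp⟩

private theorem a10_TT_zero (m : ℂ) : TT m 0 = 0 := by
  ext n
  rw [TT, coeff_mk]
  simp

private theorem a10_sum {ι : Type*} (s : Finset ι) (F : ι → ℂ⟦X⟧) (hF : ∀ i, AG (F i)) (m : ℂ) :
    AG (∑ i ∈ s, F i) ∧ TT m (∑ i ∈ s, F i) = ∑ i ∈ s, TT m (F i) := by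
  classical
  induction s using Finset.induction_on with
  | empty => exact ⟨by simpa using a10_AG_zero, by simpa using a10_TT_zero m⟩
  | insert a s ha ih =>
    rw [Finset.sum_insert ha, Finset.sum_insert ha]
    exact ⟨AG_add (hF a) ih.1, by rw [TT_add (hF a) ih.1, ih.2]⟩

private theorem a10_pow {F : ℂ⟦X⟧} (hF : AG F) (m : ℂ) (a : ℕ) :
    AG (X ^ a * F) ∧ TT m (X ^ a * F) = (PowerSeries.C m + X) ^ a * TT m F := by
  induction a with
  | zero => exact ⟨by simpa using hF, by simp⟩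
  | succ a ih =>
    have h : (X : ℂ⟦X⟧) ^ (a + 1) * F = X * (X ^ a * F) := by ring
    rw [h]
    refine ⟨AG_X_mul ih.1, ?_⟩
    rw [TT_X_mul ih.1, ih.2]
    ring

theorem TT_RS {lam : Type*} [Fintype lam] (m : ℕ) (G : lam → ℂ⟦X⟧) (hG : ∀ l, AG (G l)) {D : ℕ} (p : Fin D → lam → ℤ) :
    TT (m : ℂ) (RS 0 G p) = RS m (fun l => TT (m : ℂ) (G l)) p := by
  have hcast : ∀ z : ℤ, (z : ℂ⟦X⟧) = PowerSeries.C (z : ℂ) := fun z => (map_intCast (PowerSeries.C (R := ℂ)) z).symm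
  have hm : PowerSeries.C (m : ℂ) = (m : ℂ⟦X⟧) := map_natCast (PowerSeries.C (R := ℂ)) m
  have hterm : ∀ (a : Fin D) (l : lam), AG ((p a l : ℂ⟦X⟧) * ((((0 : ℕ) : ℂ⟦X⟧) + X) ^ (a : ℕ) * G l)) ∧
      TT (m : ℂ) ((p a l : ℂ⟦X⟧) * ((((0 : ℕ) : ℂ⟦X⟧) + X) ^ (a : ℕ) * G l))
        = (p a l : ℂ⟦X⟧) * (((m : ℂ⟦X⟧) + X) ^ (a : ℕ) * TT (m : ℂ) (G l)) := by
    intro a l
    rw [Nat.cast_zero, zero_add, hcast]
    have h := a10_pow (hG l) (m : ℂ) a
    exact ⟨ag_smul _ h.1, by rw [TT_smul, h.2, hm]⟩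
  rw [RS, RS]
  rw [(a10_sum _ _ (fun a => (a10_sum _ _ (fun l => (hterm a l).1) (m : ℂ)).1) (m : ℂ)).2]
  refine Finset.sum_congr rfl fun a _ => ?_
  rw [(a10_sum _ _ (fun l => (hterm a l).1) (m : ℂ)).2]
  exact Finset.sum_congr rfl fun l _ => (hterm a l).2

end Pool.Agent.H57LW
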