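import Pool.Agent.Lib.H57LW.A02

/-!
# A11: a zero of order `S` at `0` makes all Taylor coefficients at `m` small
-/

open Finset PowerSeries
open scoped Nat

namespace Pool.Agent.H57LW

/-- The ratio of consecutive weights. -/
theorem a11_ratio {B : ℝ} (hB : 1 ≤ B) {D k : ℕ} (hD : D ≤ k) (hk : 12 * B ^ 2 ≤ (k : ℝ) + 1) :
    B * wt D (k + 1) ≤ 1 / 2 * wt D k := by
  have hk0 : (0 : ℝ) < (k : ℝ) + 1 := by positivity
  have hf : (0 : ℝ) < (k ! : ℝ) := by exact_mod_cast Nat.factorial_pos k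
  have h1 : ((k : ℝ) + 2) ^ D ≤ 3 * ((k : ℝ) + 1) ^ D := by
    have h2 : ((k : ℝ) + 2) = (1 / ((k : ℝ) + 1) + 1) * ((k : ℝ) + 1) := by
      field_simp
      ring
    rw [h2, mul_pow]
    refine mul_le_mul_of_nonneg_right ?_ (by positivity)
    have h3 : (1 / ((k : ℝ) + 1) + 1) ^ D ≤ Real.exp (1 / ((k : ℝ) + 1)) ^ D :=
      pow_le_pow_left₀ (by positivity) (Real.add_one_le_exp _) D
    rw [← Real.exp_nat_mul] at h3
    have h4 : (D : ℝ) * (1 / ((k : ℝ) + 1)) ≤ 1 := by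
      rw [mul_one_div, div_le_one hk0]
      have : (D : ℝ) ≤ k := by exact_mod_cast hD
      linarith
    have h5 := Real.exp_le_exp.2 h4
    have h6 := Real.exp_one_lt_d9
    linarith
  have hw : wt D k = √(((k : ℝ) + 1) ^ D / (k ! : ℝ)) := rfl
  have hw1 : wt D (k + 1) = √((((k + 1 : ℕ) : ℝ) + 1) ^ D / ((k + 1) ! : ℝ)) := rfl
  have h7 : (((k + 1 : ℕ) : ℝ) + 1) ^ D / ((k + 1) ! : ℝ) ≤ (1 / (2 * B)) ^ 2 * (((k : ℝ) + 1) ^ D / (k ! : ℝ)) := by
    have h8 : ((k + 1 : ℕ) : ℝ) + 1 = (k : ℝ) + 2 := by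
      push_cast
      ring
    have h9 : ((k + 1) ! : ℝ) = ((k : ℝ) + 1) * (k ! : ℝ) := by
      rw [Nat.factorial_succ]
      push_cast
      ring
    rw [h8, h9, div_le_iff₀ (by positivity)]
    have h10 : (1 / (2 * B)) ^ 2 * (((k : ℝ) + 1) ^ D / (k ! : ℝ)) * (((k : ℝ) + 1) * (k ! : ℝ)) =
        ((k : ℝ) + 1) / (4 * B ^ 2) * ((k : ℝ) + 1) ^ D := by
      field_simp
      ring
    rw [h10]
    refine h1.trans (mul_le_mul_of_nonneg_right ?_ (by positivity))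
    rw [le_div_iff₀ (by positivity)]
    linarith
  have h11 : wt D (k + 1) ≤ 1 / (2 * B) * wt D k := by
    rw [hw, hw1]
    refine (Real.sqrt_le_sqrt h7).trans (le_of_eq ?_)
    rw [Real.sqrt_mul (by positivity), Real.sqrt_sq (by positivity)]
  calc B * wt D (k + 1) ≤ B * (1 / (2 * B) * wt D k) := mul_le_mul_of_nonneg_left h11 (by linarith)
    _ = 1 / 2 * wt D k := by
      field_simp

theorem a11_geom {B : ℝ} (hB : 1 ≤ B) {D S : ℕ} (hD : D ≤ S) (hS : 12 * B ^ 2 ≤ (S : ℝ)) (j : ℕ) :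
    B ^ (S + j) * wt D (S + j) ≤ B ^ S * wt D S * (1 / 2) ^ j := by
  induction j with
  | zero => simp
  | succ j ih =>
    have h1 := a11_ratio hB (D := D) (k := S + j) (by omega) (by
      push_cast
      have : (0 : ℝ) ≤ (j : ℝ) := Nat.cast_nonneg j
      linarith)
    have h2 : B ^ (S + (j + 1)) * wt D (S + (j + 1)) = B ^ (S + j) * (B * wt D (S + j + 1)) := by
      rw [← Nat.add_assoc, pow_succ]
      ring
    rw [h2]
    calc B ^ (S + j) * (B * wt D (S + j + 1)) ≤ B ^ (S + j) * (1 / 2 * wt D (S + j)) :=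
          mul_le_mul_of_nonneg_left h1 (by positivity)
      _ = 1 / 2 * (B ^ (S + j) * wt D (S + j)) := by ring
      _ ≤ 1 / 2 * (B ^ S * wt D S * (1 / 2) ^ j) := mul_le_mul_of_nonneg_left ih (by norm_num)
      _ = B ^ S * wt D S * (1 / 2) ^ (j + 1) := by ring

theorem a11_hasSum (K : ℝ) (i0 : ℕ) : HasSum (fun i : ℕ => if i < i0 then (0 : ℝ) else K * (1 / 2) ^ (i - i0)) (2 * K) := by
  obtain ⟨f, hf⟩ : ∃ f : ℕ → ℝ, f = fun i : ℕ => if i < i0 then (0 : ℝ) else K * (1 / 2) ^ (i - i0) := ⟨_, rfl⟩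
  rw [← hf]
  have h1 : HasSum (fun i : ℕ => K * (1 / 2 : ℝ) ^ i) (K * 2) := hasSum_geometric_two.mul_left K
  have e : (fun i : ℕ => K * (1 / 2 : ℝ) ^ i) = fun i : ℕ => f (i + i0) := by
    funext i
    rw [hf]
    show _ = (if i + i0 < i0 then (0 : ℝ) else K * (1 / 2) ^ (i + i0 - i0))
    rw [if_neg (by omega), Nat.add_sub_cancel]
  rw [e] at h1
  have h3 := (hasSum_nat_add_iff (f := f) i0).1 h1
  have h4 : ∑ i ∈ Finset.range i0, f i = 0 := by
    refine Finset.sum_eq_zero fun i hi => ?_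
    rw [hf]
    exact if_pos (Finset.mem_range.1 hi)
  rw [h4, add_zero, mul_comm] at h3
  exact h3

/-- For `i ≥ S ≥ D` the ratio of consecutive `(2 (m0+1) C)^i wt D i` is at most `1/2` (`S` large): the sum is at most twice its
first term. `binom(n+i, n) ≤ 2^(n+i)`. -/
theorem tail {C : ℝ} (hC : 1 ≤ C) (m0 : ℕ) : ∃ (C' : ℝ) (S0 : ℕ), 1 ≤ C' ∧ ∀ S D : ℕ, S0 ≤ S → D ≤ S →
    ∀ (Y : ℝ) (F : ℂ⟦X⟧), 0 ≤ Y → (∀ i, i < S → coeff i F = 0) → (∀ i, ‖coeff i F‖ ≤ Y * (C ^ (i + 1) * wt D i)) →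
      ∀ m : ℕ, m ≤ m0 → ∀ n, ‖coeff n (TT (m : ℂ) F)‖ ≤ Y * (C' ^ (S + 1) * wt D S) := by
  obtain ⟨B, hBd⟩ : ∃ B : ℝ, B = 2 * C * (m0 + 1) := ⟨_, rfl⟩
  have hm0 : (0 : ℝ) ≤ m0 := Nat.cast_nonneg m0
  have hB : 1 ≤ B := by
    rw [hBd]
    nlinarith
  refine ⟨2 * C * B, ⌈12 * B ^ 2⌉₊, by nlinarith, fun S D hS hD Y F hY h0 hF m hm n => ?_⟩
  have hS' : 12 * B ^ 2 ≤ (S : ℝ) := Nat.ceil_le.1 hS
  have hwS : 0 < wt D S := wt_pos D S
  obtain ⟨K, hK⟩ : ∃ K : ℝ, K = Y * C * (B ^ S * wt D S) := ⟨_, rfl⟩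
  have hK0 : 0 ≤ K := by
    rw [hK]
    positivity
  have key : ∀ i : ℕ, ‖coeff (n + i) F * ((n + i).choose n : ℂ) * (m : ℂ) ^ i‖ ≤
      if i < S - n then (0 : ℝ) else K * (1 / 2) ^ (i - (S - n)) := by
    intro i
    split_ifs with h
    · rw [h0 (n + i) (by omega), zero_mul, zero_mul, norm_zero]
    · obtain ⟨j, hj⟩ : ∃ j, n + i = S + j := ⟨n + i - S, by omega⟩
      have h1 : ‖coeff (n + i) F‖ ≤ Y * (C ^ (n + i + 1) * wt D (n + i)) := hF (n + i)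
      have h2 : ‖((n + i).choose n : ℂ)‖ ≤ 2 ^ (n + i) := by
        rw [Complex.norm_natCast]
        exact_mod_cast Nat.choose_le_two_pow (n + i) n
      have h3 : ‖(m : ℂ) ^ i‖ ≤ ((m0 : ℝ) + 1) ^ (n + i) := by
        rw [norm_pow, Complex.norm_natCast]
        have h4 : (m : ℝ) ≤ (m0 : ℝ) + 1 := by
          have : (m : ℝ) ≤ m0 := by exact_mod_cast hm
          linarith
        refine (pow_le_pow_left₀ (Nat.cast_nonneg m) h4 i).trans ?_
        exact pow_le_pow_right₀ (by linarith) (by omega)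
      have hwn : 0 < wt D (n + i) := wt_pos D (n + i)
      have h5 : ‖coeff (n + i) F * ((n + i).choose n : ℂ) * (m : ℂ) ^ i‖ ≤
          Y * (C ^ (n + i + 1) * wt D (n + i)) * 2 ^ (n + i) * ((m0 : ℝ) + 1) ^ (n + i) := by
        rw [norm_mul, norm_mul]
        refine mul_le_mul (mul_le_mul h1 h2 (norm_nonneg _) (by positivity)) h3 (norm_nonneg _) (by positivity)
      have h6 : Y * (C ^ (n + i + 1) * wt D (n + i)) * 2 ^ (n + i) * ((m0 : ℝ) + 1) ^ (n + i) =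
          Y * C * (B ^ (n + i) * wt D (n + i)) := by
        rw [hBd, mul_pow, mul_pow, pow_succ]
        ring
      have h7 : B ^ (n + i) * wt D (n + i) ≤ B ^ S * wt D S * (1 / 2) ^ j := by
        rw [hj]
        exact a11_geom hB hD hS' j
      have h8 : ((1 : ℝ) / 2) ^ j ≤ (1 / 2) ^ (i - (S - n)) :=
        pow_le_pow_of_le_one (by norm_num) (by norm_num) (by omega)
      calc ‖coeff (n + i) F * ((n + i).choose n : ℂ) * (m : ℂ) ^ i‖ ≤ Y * C * (B ^ (n + i) * wt D (n + i)) := by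
            rw [← h6]
            exact h5
        _ ≤ Y * C * (B ^ S * wt D S * (1 / 2) ^ j) := mul_le_mul_of_nonneg_left h7 (by positivity)
        _ = K * (1 / 2) ^ j := by
            rw [hK]
            ring
        _ ≤ K * (1 / 2) ^ (i - (S - n)) := mul_le_mul_of_nonneg_left h8 hK0
  have h9 : coeff n (TT (m : ℂ) F) = ∑' i : ℕ, coeff (n + i) F * ((n + i).choose n : ℂ) * (m : ℂ) ^ i := by
    unfold TT
    rw [PowerSeries.coeff_mk]
  rw [h9]
  refine (tsum_of_norm_bounded (a11_hasSum K (S - n)) key).trans ?_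
  have h10 : B ^ S ≤ (2 * C * B) ^ S := pow_le_pow_left₀ (by linarith) (by nlinarith) S
  have h11 : 2 * C ≤ 2 * C * B := by nlinarith
  have h12 : 2 * C * B ^ S ≤ (2 * C * B) ^ (S + 1) := by
    rw [pow_succ, mul_comm ((2 * C * B) ^ S)]
    exact mul_le_mul h11 h10 (by positivity) (by positivity)
  calc 2 * K = Y * ((2 * C * B ^ S) * wt D S) := by
        rw [hK]
        ring
    _ ≤ Y * ((2 * C * B) ^ (S + 1) * wt D S) :=
        mul_le_mul_of_nonneg_left (mul_le_mul_of_nonneg_right h12 hwS.le) hY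

end Pool.Agent.H57LW
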