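import Pool.Agent.Lib.H57LW.A03
import Pool.Agent.Lib.H57LW.A05
import Pool.Agent.Lib.H57LW.A10
import Pool.Agent.Lib.H57LW.A11

/-!
# A12: the values are small
-/

open Finset PowerSeries
open scoped Nat

namespace Pool.Agent.H57LW

/-- `∑_b i0 (coeff (i+e) (RS m (Ha k · b) p)) th m b = coeff (i+e) (Th * TT m (map i0 (RS 0 Psa p)))`
(`RS_map`, `RS_comb`, LINK, `RS_mul`, `TT_RS`). -/
theorem value {K : Type*} [Field K] (i0 : K →+* ℂ) {lam bx : Type*} [Fintype lam] [Fintype bx] (Psa : lam → K⟦X⟧)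
    (hAG : ∀ l, AG (PowerSeries.map i0 (Psa l))) (H : lam → bx → K⟦X⟧) (m : ℕ) (t : bx → ℂ) (Th : ℂ⟦X⟧)
    (hlink : ∀ l, ∑ b, PowerSeries.map i0 (H l b) * PowerSeries.C (t b) = Th * TT (m : ℂ) (PowerSeries.map i0 (Psa l)))
    {D : ℕ} (p : Fin D → lam → ℤ) (n : ℕ) :
    ∑ b, i0 (coeff n (RS m (fun l => H l b) p)) * t b =
      coeff n (Th * TT (m : ℂ) (PowerSeries.map i0 (RS 0 Psa p))) := by
  have h1 : ∀ b, PowerSeries.map i0 (RS m (fun l => H l b) p) = RS m (fun l => PowerSeries.map i0 (H l b)) p :=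
    fun b => RS_map i0 m (fun l => H l b) p
  have h2 : ∑ b, i0 (coeff n (RS m (fun l => H l b) p)) * t b =
      coeff n (∑ b, RS m (fun l => PowerSeries.map i0 (H l b)) p * PowerSeries.C (t b)) := by
    rw [map_sum]
    refine sum_congr rfl fun b _ => ?_
    rw [← h1 b, coeff_mul_C, coeff_map]
  have h3 : (fun l => ∑ b, PowerSeries.map i0 (H l b) * PowerSeries.C (t b)) =
      fun l => Th * TT (m : ℂ) (PowerSeries.map i0 (Psa l)) := funext hlink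
  rw [h2, RS_comb m (fun l b => PowerSeries.map i0 (H l b)) (fun b => PowerSeries.C (t b)) p, h3,
    RS_mul m Th (fun l => TT (m : ℂ) (PowerSeries.map i0 (Psa l))) p, ← TT_RS m (fun l => PowerSeries.map i0 (Psa l)) hAG p,
    ← RS_map i0 0 Psa p]

/-- One constant for finitely many monotone conditions. -/
theorem a12_unif {ι : Type*} [Finite ι] (Q : ι → ℝ → Prop) (hmono : ∀ i C C', C ≤ C' → Q i C → Q i C') (h : ∀ i, ∃ C, Q i C) :
    ∃ C : ℝ, 1 ≤ C ∧ ∀ i, Q i C := by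
  choose c hc using h
  obtain ⟨B, hB⟩ := (Set.finite_range c).bddAbove
  exact ⟨max B 1, le_max_right _ _, fun i => hmono i (c i) _ ((hB ⟨i, rfl⟩).trans (le_max_left _ _)) (hc i)⟩

theorem a12_conv {Th G : ℂ⟦X⟧} {C2 W : ℝ} (hC2 : 1 ≤ C2) (hTh : ∀ i, ‖coeff i Th‖ ≤ C2 ^ (i + 1)) (hW : 0 ≤ W)
    (hG : ∀ n, ‖coeff n G‖ ≤ W) (n : ℕ) : ‖coeff n (Th * G)‖ ≤ ((n : ℝ) + 1) * (C2 ^ (n + 1) * W) := by
  rw [coeff_mul]
  calc ‖∑ q ∈ antidiagonal n, coeff q.1 Th * coeff q.2 G‖ ≤ ∑ q ∈ antidiagonal n, C2 ^ (n + 1) * W := by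
        refine (norm_sum_le _ _).trans (sum_le_sum fun q hq => ?_)
        rw [norm_mul]
        have h1 : q.1 ≤ n := by
          have := mem_antidiagonal.1 hq
          omega
        have h2 : C2 ^ (q.1 + 1) ≤ C2 ^ (n + 1) := pow_le_pow_right₀ hC2 (by omega)
        exact mul_le_mul ((hTh _).trans h2) (hG _) (norm_nonneg _) (by positivity)
    _ = ((n : ℝ) + 1) * (C2 ^ (n + 1) * W) := by
        rw [sum_const, Nat.card_antidiagonal, nsmul_eq_mul]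
        push_cast
        ring

theorem a12_final {d : ℕ → ℕ} (hd : Den d) {ε : ℝ} (hε : 0 < ε) (c : ℕ) {C2 C' : ℝ} (hC2 : 1 ≤ C2) (hC' : 1 ≤ C') (e0 : ℕ) :
    ∃ C : ℝ, 0 ≤ C ∧ ∀ D S i : ℕ, 4 * i ≤ S →
      (d i : ℝ) * ((((i + e0 : ℕ) : ℝ) + 1) * (C2 ^ (i + e0 + 1) * ((D * c : ℝ) * (C' ^ (S + 1) * wt D S)))) ≤
        Real.exp (EE ε C D S - (3 / 8 - ε / 4) * S * Real.log (S + 1)) := by
  obtain ⟨C3, hC3⟩ := hd.log ε hε
  have hl2 : 0 ≤ Real.log C2 := Real.log_nonneg hC2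
  have hl' : 0 ≤ Real.log C' := Real.log_nonneg hC'
  refine ⟨(e0 + 1) + 1 + c + (e0 + 1) * Real.log C2 + Real.log C' + |C3| + 1 / 2, by positivity, ?_⟩
  intro D S i hi
  have hL : 0 ≤ Real.log ((S : ℝ) + 1) := Real.log_nonneg (by
    have : (0 : ℝ) ≤ S := Nat.cast_nonneg S
    linarith)
  have hiS : (i : ℝ) ≤ S / 4 := by
    have : ((4 * i : ℕ) : ℝ) ≤ S := by exact_mod_cast hi
    push_cast at this
    linarith
  have hi0 : (0 : ℝ) ≤ i := Nat.cast_nonneg i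
  have hS0 : (0 : ℝ) ≤ S := Nat.cast_nonneg S
  have hD0 : (0 : ℝ) ≤ D := Nat.cast_nonneg D
  have he0 : (0 : ℝ) ≤ e0 := Nat.cast_nonneg e0
  have hc0 : (0 : ℝ) ≤ c := Nat.cast_nonneg c
  have hdp : (0 : ℝ) < d i := by exact_mod_cast hd.pos i
  have hle : ∀ x : ℝ, x ≤ Real.exp x := fun x => (by linarith : x ≤ x + 1).trans (Real.add_one_le_exp x)
  have f1 : (d i : ℝ) ≤ Real.exp ((1 / 2 + ε) * i * Real.log (i + 1) + C3 * (i + 1)) := by
    rw [← Real.log_le_iff_le_exp hdp]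
    exact hC3 i
  have f2 : ((i + e0 : ℕ) : ℝ) + 1 ≤ Real.exp (((i + e0 : ℕ) : ℝ) + 1) := hle _
  have f3 : C2 ^ (i + e0 + 1) = Real.exp (((i + e0 + 1 : ℕ) : ℝ) * Real.log C2) := by
    rw [mul_comm, Real.exp_mul, Real.exp_log (by linarith), Real.rpow_natCast]
  have f4 : (D : ℝ) ≤ Real.exp D := hle _
  have f5 : (c : ℝ) ≤ Real.exp c := hle _
  have f6 : C' ^ (S + 1) = Real.exp (((S + 1 : ℕ) : ℝ) * Real.log C') := by
    rw [mul_comm, Real.exp_mul, Real.exp_log (by linarith), Real.rpow_natCast]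
  have f7 : wt D S ≤ Real.exp ((D : ℝ) / 2 * Real.log (S + 1) - 1 / 2 * S * Real.log (S + 1) + (S + 1) / 2) := by
    rw [← Real.log_le_iff_le_exp (wt_pos D S)]
    exact log_wt_le D S
  have hw := (wt_pos D S).le
  calc (d i : ℝ) * ((((i + e0 : ℕ) : ℝ) + 1) * (C2 ^ (i + e0 + 1) * ((D * c : ℝ) * (C' ^ (S + 1) * wt D S))))
      ≤ Real.exp ((1 / 2 + ε) * i * Real.log (i + 1) + C3 * (i + 1)) * (Real.exp (((i + e0 : ℕ) : ℝ) + 1) *
          (Real.exp (((i + e0 + 1 : ℕ) : ℝ) * Real.log C2) * ((Real.exp D * Real.exp c) *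
            (Real.exp (((S + 1 : ℕ) : ℝ) * Real.log C') *
              Real.exp ((D : ℝ) / 2 * Real.log (S + 1) - 1 / 2 * S * Real.log (S + 1) + (S + 1) / 2))))) := by
        rw [f3, f6]
        gcongr
    _ = Real.exp (((1 / 2 + ε) * i * Real.log (i + 1) + C3 * (i + 1)) + ((((i + e0 : ℕ) : ℝ) + 1) +
          ((((i + e0 + 1 : ℕ) : ℝ) * Real.log C2) + ((D + c) + ((((S + 1 : ℕ) : ℝ) * Real.log C') +
              ((D : ℝ) / 2 * Real.log (S + 1) - 1 / 2 * S * Real.log (S + 1) + (S + 1) / 2)))))) := by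
        simp only [Real.exp_add]
    _ ≤ _ := by
        rw [Real.exp_le_exp]
        unfold EE
        push_cast
        have g1 : (1 / 2 + ε) * i * Real.log (i + 1) ≤ (1 / 2 + ε) * (S / 4) * Real.log (S + 1) := by
          have hlog : Real.log ((i : ℝ) + 1) ≤ Real.log ((S : ℝ) + 1) := Real.log_le_log (by linarith) (by linarith)
          have hlog0 : 0 ≤ Real.log ((i : ℝ) + 1) := Real.log_nonneg (by linarith)
          gcongr
        have g2 : C3 * ((i : ℝ) + 1) ≤ |C3| * (S + D + 1) := by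
          calc C3 * ((i : ℝ) + 1) ≤ |C3| * ((i : ℝ) + 1) := mul_le_mul_of_nonneg_right (le_abs_self _) (by linarith)
            _ ≤ |C3| * (S + D + 1) := mul_le_mul_of_nonneg_left (by linarith) (abs_nonneg _)
        have g3 : (i : ℝ) + e0 + 1 ≤ (e0 + 1) * (S + D + 1) := by nlinarith
        have g4 : ((i : ℝ) + e0 + 1) * Real.log C2 ≤ (e0 + 1) * Real.log C2 * (S + D + 1) := by
          calc ((i : ℝ) + e0 + 1) * Real.log C2 ≤ ((e0 + 1) * (S + D + 1)) * Real.log C2 := mul_le_mul_of_nonneg_right g3 hl2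
            _ = _ := by ring
        have g5 : ((S : ℝ) + 1) * Real.log C' ≤ Real.log C' * (S + D + 1) := by nlinarith
        have g6 : (c : ℝ) ≤ c * (S + D + 1) := by nlinarith
        have g7 : 0 ≤ ε * S * Real.log ((S : ℝ) + 1) := by positivity
        nlinarith

theorem vals {K : Type*} [Field K] (i0 : K →+* ℂ) {lam kap bx : Type*} [Fintype lam] [Finite kap] [Fintype bx]
    (Psa : lam → K⟦X⟧) (hAG : ∀ l, AG (PowerSeries.map i0 (Psa l))) (Ha : kap → lam → bx → K⟦X⟧) (m0 e0 : ℕ)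
    (th : ℕ → bx → ℂ)
    (hlink : ∀ m, 1 ≤ m → m ≤ m0 → ∀ k, ∃ Th : ℂ⟦X⟧, (∃ C : ℝ, ∀ i, ‖coeff i Th‖ ≤ C ^ (i + 1)) ∧
      ∀ l, ∑ b, PowerSeries.map i0 (Ha k l b) * PowerSeries.C (th m b) =
        Th * TT (m : ℂ) (PowerSeries.map i0 (Psa l)))
    (d : ℕ → ℕ) (hd : Den d) (ε : ℝ) (hε : 0 < ε) :
    ∃ (C : ℝ) (S0 : ℕ), 0 ≤ C ∧ ∀ (D S N : ℕ) (p : Fin D → lam → ℤ), S0 ≤ S → D ≤ S →
      (∀ a l, |p a l| ≤ (N : ℤ)) → (∀ i, i < S → coeff i (RS 0 Psa p) = 0) →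
      ∀ m, 1 ≤ m → m ≤ m0 → ∀ k i, 4 * i ≤ S →
        (d i : ℝ) * ‖∑ b, i0 (coeff (i + e0) (RS m (fun l => Ha k l b) p)) * th m b‖ ≤
          N * Real.exp (EE ε C D S - (3 / 8 - ε / 4) * S * Real.log (S + 1)) := by
  obtain ⟨C1, hC1, hAGC⟩ := ag_unif (fun l => PowerSeries.map i0 (Psa l)) hAG
  obtain ⟨C2, hC2, hTh⟩ := a12_unif (ι := Fin (m0 + 1) × kap) (fun q C => 1 ≤ (q.1 : ℕ) → ∃ Th : ℂ⟦X⟧,
      (∀ i, ‖coeff i Th‖ ≤ C ^ (i + 1)) ∧ ∀ l, ∑ b, PowerSeries.map i0 (Ha q.2 l b) * PowerSeries.C (th q.1 b) =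
        Th * TT ((q.1 : ℕ) : ℂ) (PowerSeries.map i0 (Psa l))) (by
      intro q C C' hCC h hq
      obtain ⟨Th, h1, h2⟩ := h hq
      have hC0 : 0 ≤ C := by
        have := (norm_nonneg _).trans (h1 0)
        rwa [zero_add, pow_one] at this
      exact ⟨Th, fun i => (h1 i).trans (pow_le_pow_left₀ hC0 hCC _), h2⟩) (by
      intro q
      by_cases hq : 1 ≤ (q.1 : ℕ)
      · obtain ⟨Th, ⟨C, h1⟩, h2⟩ := hlink q.1 hq (by omega) q.2
        exact ⟨C, fun _ => ⟨Th, h1, h2⟩⟩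
      · exact ⟨0, fun h => absurd h hq⟩)
  obtain ⟨C', S0, hC', htail⟩ := tail hC1 m0
  obtain ⟨C, hC, hfin⟩ := a12_final hd hε (Fintype.card lam) hC2 hC' e0
  refine ⟨C, S0, hC, ?_⟩
  intro D S N p hS0 hDS hp hz m hm1 hm2 k i hi
  obtain ⟨Th, h1, h2⟩ := hTh (⟨m, by omega⟩, k) hm1
  rw [value i0 Psa hAG (fun l b => Ha k l b) m (th m) Th h2 p (i + e0)]
  have hN : (0 : ℝ) ≤ (N : ℝ) := Nat.cast_nonneg N
  have hY : (0 : ℝ) ≤ N * (D * Fintype.card lam) := by positivity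
  have hF : ∀ n, ‖coeff n (PowerSeries.map i0 (RS 0 Psa p))‖ ≤ (N * (D * Fintype.card lam) : ℝ) * (C1 ^ (n + 1) * wt D n) := by
    intro n
    rw [RS_map]
    have h3 := RS_size hC1 (fun l => PowerSeries.map i0 (Psa l)) hAGC p (N : ℝ) (fun a l => by
      have := hp a l
      exact_mod_cast this) 0 n
    refine h3.trans (le_of_eq ?_)
    push_cast
    rw [zero_add, one_pow]
    ring
  have hF0 : ∀ i, i < S → coeff i (PowerSeries.map i0 (RS 0 Psa p)) = 0 := by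
    intro i hi
    rw [coeff_map, hz i hi, map_zero]
  have h4 := htail S D hS0 hDS _ _ hY hF0 hF m hm2
  have hw := (wt_pos D S).le
  have h5 := a12_conv hC2 h1 (by positivity) h4 (i + e0)
  have h6 := hfin D S i hi
  calc (d i : ℝ) * ‖coeff (i + e0) (Th * TT (m : ℂ) (PowerSeries.map i0 (RS 0 Psa p)))‖
      ≤ (d i : ℝ) * ((((i + e0 : ℕ) : ℝ) + 1) * (C2 ^ (i + e0 + 1) * ((N * (D * Fintype.card lam) : ℝ) *
          (C' ^ (S + 1) * wt D S)))) := mul_le_mul_of_nonneg_left h5 (Nat.cast_nonneg _)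
    _ = N * ((d i : ℝ) * ((((i + e0 : ℕ) : ℝ) + 1) * (C2 ^ (i + e0 + 1) * ((D * Fintype.card lam : ℝ) *
          (C' ^ (S + 1) * wt D S))))) := by ring
    _ ≤ _ := mul_le_mul_of_nonneg_left h6 hN

end Pool.Agent.H57LW
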