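import Pool.Agent.Lib.H57LW.Defs

/-!
# A13: selection of a basis by levels
-/

open Finset

namespace Pool.Agent.H57LW

private theorem a13_step {K V I : Type*} [Field K] [AddCommGroup V] [Module K V] (lev : I → ℕ) (v : I → V) (N : ℕ) :
    ∃ Sel : Set I, Sel ⊆ {s | lev s < N} ∧ LinearIndepOn K v Sel ∧
      ∀ n, n < N → ∀ t, lev t ≤ n → v t ∈ Submodule.span K (v '' {s | s ∈ Sel ∧ lev s ≤ n}) := by
  induction N with
  | zero =>
    refine ⟨∅, Set.empty_subset _, linearIndepOn_empty K v, fun n hn => absurd hn (Nat.not_lt_zero n)⟩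
  | succ N ih =>
    obtain ⟨Sel, hsub, hind, hsp⟩ := ih
    have hsub' : Sel ⊆ {s | lev s < N + 1} := fun s hs => Nat.lt_succ_of_lt (hsub hs)
    obtain ⟨b, hb, hSb, hspan, hbi⟩ := exists_linearIndepOn_extension hind hsub'
    refine ⟨b, hb, hbi, ?_⟩
    intro n hn t ht
    by_cases hnN : n < N
    · refine Submodule.span_mono ?_ (hsp n hnN t ht)
      exact Set.image_mono fun s hs => ⟨hSb hs.1, hs.2⟩
    · have e : n = N := by omega
      subst e
      have h1 : v t ∈ Submodule.span K (v '' b) := hspan ⟨t, Nat.lt_succ_of_le ht, rfl⟩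
      refine Submodule.span_mono ?_ h1
      exact Set.image_mono fun s hs => ⟨hs, Nat.le_of_lt_succ (hb hs)⟩

/-- Induction on the largest level, `exists_linearIndepOn_extension`. -/
theorem greedy {K V I : Type*} [Field K] [AddCommGroup V] [Module K V] [Finite I] (lev : I → ℕ) (v : I → V) :
    ∃ Sel : Set I, LinearIndepOn K v Sel ∧
      ∀ n t, lev t ≤ n → v t ∈ Submodule.span K (v '' {s | s ∈ Sel ∧ lev s ≤ n}) := by
  obtain ⟨N, hN⟩ : ∃ N, ∀ t, lev t < N := by
    obtain ⟨B, hB⟩ := (Set.finite_range lev).bddAbove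
    exact ⟨B + 1, fun t => Nat.lt_succ_of_le (hB ⟨t, rfl⟩)⟩
  obtain ⟨Sel, _, hind, hsp⟩ := a13_step (K := K) lev v N
  refine ⟨Sel, hind, ?_⟩
  intro n t ht
  have h1 := hN t
  have h2 := hsp (min n (N - 1)) (by omega) t (by omega)
  refine Submodule.span_mono ?_ h2
  exact Set.image_mono fun s hs => ⟨hs.1, hs.2.trans (min_le_left _ _)⟩

end Pool.Agent.H57LW
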