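import Pool.Agent.Lib.H57LW.Defs

/-!
# A14: unitriangular transition matrices and maximal minors
-/

open Finset

namespace Pool.Agent.H57LW

/-- `T s t = 0` unless `s = t` (then `1`) or `lev t < lev s`: `Matrix.BlockTriangular` (for the transpose), all diagonal blocks
are `1`. -/
theorem unitri {K V I : Type*} [Field K] [AddCommGroup V] [Module K V] [Fintype I] [DecidableEq I] (lev : I → ℕ)
    (v w : I → V) (h : ∀ s, w s - v s ∈ Submodule.span K (v '' {t | lev t < lev s})) :
    ∃ T : Matrix I I K, T.det = 1 ∧ ∀ s, w s = ∑ t, T s t • v t := by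
  have h1 : ∀ s, ∃ l ∈ Finsupp.supported K K {t | lev t < lev s}, Finsupp.linearCombination K v l = w s - v s :=
    fun s => (Finsupp.mem_span_image_iff_linearCombination K).1 (h s)
  choose l hl1 hl2 using h1
  have hl0 : ∀ s t, ¬ lev t < lev s → l s t = 0 := by
    intro s t hst
    have h2 := (Finsupp.mem_supported' K (l s)).1 (hl1 s)
    exact h2 t hst
  refine ⟨Matrix.of fun s t => (if s = t then 1 else 0) + l s t, ?_, ?_⟩
  · have hT : Matrix.BlockTriangular (Matrix.of fun s t => (if s = t then (1 : K) else 0) + l s t)
        (fun s => OrderDual.toDual (lev s)) := by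
      intro i j hij
      have hij' : lev i < lev j := hij
      rw [Matrix.of_apply, hl0 i j (by omega), if_neg (by rintro rfl; exact lt_irrefl _ hij'), add_zero]
    rw [hT.det]
    apply Finset.prod_eq_one
    intro a _
    have h3 : (Matrix.of fun s t => (if s = t then (1 : K) else 0) + l s t).toSquareBlock
        (fun s => OrderDual.toDual (lev s)) a = 1 := by
      ext ⟨i, hi⟩ ⟨j, hj⟩
      rw [Matrix.toSquareBlock_def, Matrix.of_apply, Matrix.of_apply]
      have hij : lev i = lev j := by
        have := hi.trans hj.symm
        exact OrderDual.toDual.injective this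
      rw [hl0 i j (by omega), add_zero, Matrix.one_apply]
      simp only [Subtype.mk.injEq]
    rw [h3, Matrix.det_one]
  · intro s
    have h4 : ∑ t, l s t • v t = w s - v s := by
      rw [← hl2 s, Finsupp.linearCombination_apply, Finsupp.sum_fintype]
      intro i
      exact zero_smul _ _
    simp only [Matrix.of_apply, add_smul, ite_smul, one_smul, zero_smul, Finset.sum_add_distrib, Finset.sum_ite_eq,
      Finset.mem_univ, if_true]
    rw [h4]
    abel

/-- Linearly independent rows have a non-zero maximal minor. -/
theorem minor {K I B : Type*} [Field K] [Fintype I] [DecidableEq I] [Fintype B] (M : I → B → K)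
    (hM : LinearIndependent K M) :
    ∃ col : I → B, Function.Injective col ∧ (Matrix.of fun s t => M s (col t)).det ≠ 0 := by
  classical
  have hr : (Matrix.of M).rank = Fintype.card I := LinearIndependent.rank_matrix hM
  rw [Matrix.rank_eq_finrank_span_cols] at hr
  obtain ⟨κ, a, ha, hspan, hli⟩ := exists_linearIndependent' K (Matrix.of M).col
  have : Fintype κ := Fintype.ofInjective a ha
  have hcard : Fintype.card κ = Fintype.card I := by
    rw [← hspan] at hr
    rw [← hr]
    exact (finrank_span_eq_card hli).symm
  let q : I ≃ κ := Fintype.equivOfCardEq hcard.symm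
  refine ⟨a ∘ q, ha.comp q.injective, ?_⟩
  have hli2 : LinearIndependent K ((Matrix.of M).col ∘ a ∘ q) := hli.comp q q.injective
  have h5 : IsUnit (Matrix.of fun s t => M s ((a ∘ q) t)) := by
    rw [← Matrix.linearIndependent_cols_iff_isUnit]
    exact hli2
  have h6 := (Matrix.isUnit_iff_isUnit_det _).1 h5
  exact h6.ne_zero

end Pool.Agent.H57LW
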