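import Pool.Agent.Lib.H57LW.A13
import Pool.Agent.Lib.H57LW.A14

/-!
# A15: the determinant identity
-/

open Finset

namespace Pool.Agent.H57LW

/-- `greedy` for `vp`; `unitri` on the selected rows (the span of all `vp t`, `lev t < lev s`, is that of the selected ones);
`minor`; `e` is a combination of the selected `va` (`T` invertible); Cramer: `Matrix.det_updateRow_sum`. -/
theorem detid {K B I : Type*} [Field K] [Fintype B] [Finite I] (lev : I → ℕ) (vp va : I → B → K)
    (htri : ∀ s, va s - vp s ∈ Submodule.span K (vp '' {t | lev t < lev s})) (e : B → K)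
    (he : e ∈ Submodule.span K (Set.range vp)) :
    ∃ (n : ℕ) (sel : Fin n → I) (col : Fin n → B), Function.Injective col ∧
      (Matrix.of fun s t => vp (sel s) (col t)).det ≠ 0 ∧
      (Matrix.of fun s t => va (sel s) (col t)).det = (Matrix.of fun s t => vp (sel s) (col t)).det ∧
      ∀ b, (Matrix.of fun s t => va (sel s) (col t)).det * e b =
        ∑ s, ((Matrix.of fun s t => va (sel s) (col t)).updateRow s (fun t => e (col t))).det * va (sel s) b := by
  classical
  obtain ⟨Sel, hind, hspan⟩ := greedy (K := K) lev vp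
  haveI : Fintype Sel := Fintype.ofFinite Sel
  let q : Fin (Fintype.card Sel) ≃ Sel := (Fintype.equivFin Sel).symm
  let sel : Fin (Fintype.card Sel) → I := fun s => (q s : I)
  have hselS : ∀ s, sel s ∈ Sel := fun s => (q s).2
  have hsurj : ∀ t ∈ Sel, ∃ s, sel s = t := fun t ht => ⟨q.symm ⟨t, ht⟩, by simp [sel]⟩
  have hv : LinearIndependent K (fun s => vp (sel s)) := by
    have h1 : LinearIndependent K (fun x : Sel => vp x) := hind
    exact h1.comp q q.injective
  have hmono : ∀ m t, lev t < m → vp t ∈ Submodule.span K ((fun s => vp (sel s)) '' {s | lev (sel s) < m}) := by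
    intro m t ht
    refine Submodule.span_mono ?_ (hspan (lev t) t le_rfl)
    rintro _ ⟨s, ⟨hs, hs2⟩, rfl⟩
    obtain ⟨s', rfl⟩ := hsurj s hs
    exact ⟨s', lt_of_le_of_lt hs2 ht, rfl⟩
  have htri' : ∀ s, va (sel s) - vp (sel s) ∈ Submodule.span K ((fun s => vp (sel s)) '' {t | (lev ∘ sel) t < (lev ∘ sel) s}) := by
    intro s
    refine Submodule.span_le.2 ?_ (htri (sel s))
    rintro _ ⟨t, ht, rfl⟩
    exact hmono _ t ht
  obtain ⟨T, hT1, hT⟩ := unitri (lev ∘ sel) (fun s => vp (sel s)) (fun s => va (sel s)) htri'
  obtain ⟨col, hcol, hdet⟩ := minor (fun s => vp (sel s)) hv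
  have hA : (Matrix.of fun s t => va (sel s) (col t)) = T * (Matrix.of fun s t => vp (sel s) (col t)) := by
    ext s t
    rw [Matrix.mul_apply]
    have h := congrFun (hT s) (col t)
    simp only [Finset.sum_apply, Pi.smul_apply, smul_eq_mul] at h
    exact h
  refine ⟨Fintype.card Sel, sel, col, hcol, hdet, ?_, ?_⟩
  · rw [hA, Matrix.det_mul, hT1, one_mul]
  · -- `e` is a combination of the rows `va (sel s)`
    have hTu : IsUnit T.det := by rw [hT1]; exact isUnit_one
    have hinv : ∀ s, vp (sel s) = ∑ t, T⁻¹ s t • va (sel t) := by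
      intro s
      have h1 : ∀ t, T⁻¹ s t • va (sel t) = ∑ r, (T⁻¹ s t * T t r) • vp (sel r) := by
        intro t
        rw [hT t, Finset.smul_sum]
        exact Finset.sum_congr rfl fun r _ => by rw [smul_smul]
      calc vp (sel s) = ∑ r, (T⁻¹ * T) s r • vp (sel r) := by
            rw [Matrix.nonsing_inv_mul T hTu, Finset.sum_eq_single s]
            · rw [Matrix.one_apply_eq, one_smul]
            · intro r _ hr
              rw [Matrix.one_apply_ne hr.symm, zero_smul]
            · intro h
              exact absurd (Finset.mem_univ s) h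
        _ = ∑ r, ∑ t, (T⁻¹ s t * T t r) • vp (sel r) := by
            refine Finset.sum_congr rfl fun r _ => ?_
            rw [Matrix.mul_apply, Finset.sum_smul]
        _ = ∑ t, ∑ r, (T⁻¹ s t * T t r) • vp (sel r) := Finset.sum_comm
        _ = ∑ t, T⁻¹ s t • va (sel t) := Finset.sum_congr rfl fun t _ => (h1 t).symm
    have he2 : e ∈ Submodule.span K (Set.range fun s => va (sel s)) := by
      refine Submodule.span_le.2 ?_ he
      rintro _ ⟨t, rfl⟩
      have h1 : vp t ∈ Submodule.span K (Set.range fun s => vp (sel s)) := by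
        refine Submodule.span_mono ?_ (hmono (lev t + 1) t (Nat.lt_succ_self _))
        rintro _ ⟨s, -, rfl⟩
        exact ⟨s, rfl⟩
      refine Submodule.span_le.2 ?_ h1
      rintro _ ⟨s, rfl⟩
      change vp (sel s) ∈ Submodule.span K (Set.range fun s => va (sel s))
      rw [hinv s]
      exact Submodule.sum_mem _ fun t _ => Submodule.smul_mem _ _ (Submodule.subset_span ⟨t, rfl⟩)
    obtain ⟨c, hc⟩ := (Submodule.mem_span_range_iff_exists_fun K).1 he2
    intro b
    set A : Matrix (Fin (Fintype.card Sel)) (Fin (Fintype.card Sel)) K := Matrix.of fun s t => va (sel s) (col t) with hAdef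
    have hrow : (fun t => e (col t)) = ∑ k, c k • A k := by
      funext t
      rw [← hc]
      simp only [Finset.sum_apply, Pi.smul_apply, smul_eq_mul]
      rfl
    have hcr : ∀ s, (A.updateRow s (fun t => e (col t))).det = c s * A.det := by
      intro s
      rw [hrow, Matrix.det_updateRow_sum, smul_eq_mul]
    simp only [hcr]
    have heb : e b = ∑ s, c s * va (sel s) b := by
      rw [← hc]
      simp only [Finset.sum_apply, Pi.smul_apply, smul_eq_mul]
    rw [heb, Finset.mul_sum]
    exact Finset.sum_congr rfl fun s _ => by ring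

end Pool.Agent.H57LW
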