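import Pool.Agent.Lib.H57LW.A07
import Pool.Agent.Lib.H57LW.A15

/-!
# A16: product formula for the determinant
-/

open Finset
open scoped Nat

namespace Pool.Agent.H57LW

theorem det_le {n : ℕ} (M : Matrix (Fin n) (Fin n) ℂ) (g : Fin n → ℝ) (hg : ∀ s t, ‖M s t‖ ≤ g s) :
    ‖M.det‖ ≤ (n ! : ℝ) * ∏ s, g s := by
  rw [Matrix.det_apply]
  refine (norm_sum_le _ _).trans ?_
  have h1 : ∀ σ ∈ (univ : Finset (Equiv.Perm (Fin n))),
      ‖Equiv.Perm.sign σ • ∏ i, M (σ i) i‖ ≤ ∏ s, g s := by
    intro σ _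
    have h2 : ‖Equiv.Perm.sign σ • ∏ i, M (σ i) i‖ = ∏ i, ‖M (σ i) i‖ := by
      rw [← norm_prod]
      rcases Int.units_eq_one_or (Equiv.Perm.sign σ) with h | h
      · rw [h, one_smul]
      · rw [h, Units.neg_smul, one_smul, norm_neg]
    rw [h2]
    calc ∏ i, ‖M (σ i) i‖ ≤ ∏ i, g (σ i) :=
          Finset.prod_le_prod (fun _ _ => norm_nonneg _) (fun i _ => hg _ _)
      _ = ∏ s, g s := Equiv.prod_comp σ g
  refine (Finset.sum_le_sum h1).trans (le_of_eq ?_)
  rw [Finset.sum_const, Finset.card_univ, Fintype.card_perm, Fintype.card_fin, nsmul_eq_mul]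

/-- `x = (∏ Dn (sel s)) * det vp = (∏ Dn (sel s)) * det va` is integral and not `0`. For all `σ`: `‖σ x‖ ≤ n! G^n`; for `i0`:
`det va = ∑_s minor_s val_s`, so `‖i0 x‖ ≤ n n! G^n V`. `1 ≤ n ≤ #B`. -/
theorem prodf {K B I : Type*} [Field K] [NumberField K] [Fintype B] [DecidableEq B] [Finite I] (i0 : K →+* ℂ)
    (th : B → ℂ) (b0 : B) (hb0 : th b0 = 1) (lev : I → ℕ) (vp va : I → B → K)
    (htri : ∀ s, va s - vp s ∈ Submodule.span K (vp '' {t | lev t < lev s}))
    (he : (Pi.single b0 1 : B → K) ∈ Submodule.span K (Set.range vp)) (Dn : I → ℕ) (hDn : ∀ s, 0 < Dn s)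
    (hint : ∀ s b, IsIntegral ℤ ((Dn s : K) * vp s b)) (G V : ℝ) (hG : 1 ≤ G)
    (h1 : ∀ (σ : K →+* ℂ) s b, (Dn s : ℝ) * ‖σ (va s b)‖ ≤ G)
    (hV : ∀ s, (Dn s : ℝ) * ‖∑ b, i0 (va s b) * th b‖ ≤ V) :
    1 ≤ ((Fintype.card B)! : ℝ) ^ Module.finrank ℚ K * Fintype.card B *
      G ^ (Module.finrank ℚ K * Fintype.card B) * V := by
  classical
  obtain ⟨n, sel, col, hcol, hdet, heq, hcr⟩ := detid lev vp va htri (Pi.single b0 1) he
  have hG0 : (0 : ℝ) ≤ G := by linarith
  -- the integer
  set x : K := (∏ s, (Dn (sel s) : K)) * (Matrix.of fun s t => vp (sel s) (col t)).det with hx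
  have hxint : IsIntegral ℤ x := by
    rw [hx, ← Matrix.det_mul_column]
    apply IsIntegral.det
    intro i j
    rw [Matrix.of_apply, Matrix.of_apply]
    exact hint _ _
  have hDK : (∏ s, (Dn (sel s) : K)) ≠ 0 := by
    rw [Finset.prod_ne_zero_iff]
    intro s _
    exact_mod_cast (hDn (sel s)).ne'
  have hx0 : x ≠ 0 := mul_ne_zero hDK hdet
  have hprod := prod_ge_one hxint hx0
  have hxa : x = (∏ s, (Dn (sel s) : K)) * (Matrix.of fun s t => va (sel s) (col t)).det := by
    rw [hx, heq]
  -- all embeddings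
  have hall : ∀ σ : K →+* ℂ, ‖σ x‖ ≤ (n ! : ℝ) * G ^ n := by
    intro σ
    have h2 : σ x = (Matrix.of fun s t => (Dn (sel s) : ℂ) * σ (va (sel s) (col t))).det := by
      rw [hxa, ← Matrix.det_mul_column, RingHom.map_det]
      congr 1
      ext s t
      rw [RingHom.mapMatrix_apply, Matrix.map_apply, Matrix.of_apply, Matrix.of_apply, map_mul, map_natCast]
      rfl
    rw [h2]
    refine (det_le _ (fun _ => G) ?_).trans (le_of_eq ?_)
    · intro s t
      rw [Matrix.of_apply, norm_mul, Complex.norm_natCast]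
      exact h1 _ _ _
    · rw [Finset.prod_const, Finset.card_univ, Fintype.card_fin]
  -- the embedding `i0`
  have hi0 : ‖i0 x‖ ≤ n * ((n ! : ℝ) * G ^ n) * V := by
    have h3 : i0 x = ∑ s, (∏ r ∈ univ.erase s, (Dn (sel r) : ℂ)) *
        i0 ((Matrix.of fun s t => va (sel s) (col t)).updateRow s
          (fun t => (Pi.single b0 1 : B → K) (col t))).det *
        ((Dn (sel s) : ℂ) * ∑ b, i0 (va (sel s) b) * th b) := by
      have h4 : (∑ b, i0 ((Matrix.of fun s t => va (sel s) (col t)).det * (Pi.single b0 1 : B → K) b) * th b) =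
          i0 (Matrix.of fun s t => va (sel s) (col t)).det := by
        rw [Finset.sum_eq_single b0]
        · rw [Pi.single_eq_same, mul_one, hb0, mul_one]
        · intro b _ hb
          rw [Pi.single_eq_of_ne hb, mul_zero, map_zero, zero_mul]
        · intro h
          exact absurd (Finset.mem_univ _) h
      have h5 : i0 (Matrix.of fun s t => va (sel s) (col t)).det =
          ∑ s, i0 ((Matrix.of fun s t => va (sel s) (col t)).updateRow s
            (fun t => (Pi.single b0 1 : B → K) (col t))).det * ∑ b, i0 (va (sel s) b) * th b := by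
        rw [← h4]
        simp only [hcr, map_sum, map_mul, Finset.sum_mul, Finset.mul_sum]
        rw [Finset.sum_comm]
        refine Finset.sum_congr rfl fun s _ => Finset.sum_congr rfl fun b _ => ?_
        ring
      rw [hxa, map_mul, map_prod, h5, Finset.mul_sum]
      refine Finset.sum_congr rfl fun s _ => ?_
      simp only [map_natCast]
      rw [← Finset.mul_prod_erase univ (fun r => (Dn (sel r) : ℂ)) (Finset.mem_univ s)]
      ring
    rw [h3]
    refine (norm_sum_le _ _).trans ?_
    have h6 : ∀ s ∈ (univ : Finset (Fin n)), ‖(∏ r ∈ univ.erase s, (Dn (sel r) : ℂ)) *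
        i0 ((Matrix.of fun s t => va (sel s) (col t)).updateRow s
          (fun t => (Pi.single b0 1 : B → K) (col t))).det *
        ((Dn (sel s) : ℂ) * ∑ b, i0 (va (sel s) b) * th b)‖ ≤ (n ! : ℝ) * G ^ n * V := by
      intro s _
      rw [norm_mul]
      have h7 : ‖(Dn (sel s) : ℂ) * ∑ b, i0 (va (sel s) b) * th b‖ ≤ V := by
        rw [norm_mul, Complex.norm_natCast]
        exact hV _
      refine mul_le_mul ?_ h7 (norm_nonneg _) (by positivity)
      have h8 : (∏ r ∈ univ.erase s, (Dn (sel r) : ℂ)) *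
          i0 ((Matrix.of fun s t => va (sel s) (col t)).updateRow s
            (fun t => (Pi.single b0 1 : B → K) (col t))).det =
          (Matrix.of fun r t => (if r = s then (1 : ℂ) else (Dn (sel r) : ℂ)) *
            (if r = s then i0 ((Pi.single b0 1 : B → K) (col t)) else i0 (va (sel r) (col t)))).det := by
        have h9 : (∏ r ∈ univ.erase s, (Dn (sel r) : ℂ)) = ∏ r, (if r = s then (1 : ℂ) else (Dn (sel r) : ℂ)) := by
          rw [← Finset.mul_prod_erase univ (fun r => (if r = s then (1 : ℂ) else (Dn (sel r) : ℂ)))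
            (Finset.mem_univ s), if_pos rfl, one_mul]
          refine Finset.prod_congr rfl fun r hr => ?_
          rw [if_neg (Finset.ne_of_mem_erase hr)]
        have h10 := Matrix.det_mul_column (fun r => if r = s then (1 : ℂ) else (Dn (sel r) : ℂ))
          (Matrix.of fun r t => (if r = s then i0 ((Pi.single b0 1 : B → K) (col t)) else i0 (va (sel r) (col t))))
        rw [h9, RingHom.map_det]
        have h11 : i0.mapMatrix ((Matrix.of fun s t => va (sel s) (col t)).updateRow s
            (fun t => (Pi.single b0 1 : B → K) (col t))) =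
            Matrix.of fun r t => (if r = s then i0 ((Pi.single b0 1 : B → K) (col t)) else i0 (va (sel r) (col t))) := by
          ext r t
          rw [RingHom.mapMatrix_apply, Matrix.map_apply, Matrix.updateRow_apply, Matrix.of_apply, Matrix.of_apply]
          split_ifs
          · rfl
          · rfl
        rw [h11, ← h10]
        rfl
      rw [h8]
      refine (det_le _ (fun _ => G) ?_).trans (le_of_eq ?_)
      · intro r t
        rw [Matrix.of_apply]
        by_cases hr : r = s
        · rw [if_pos hr, if_pos hr, one_mul]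
          by_cases hc : col t = b0
          · rw [hc, Pi.single_eq_same, map_one, norm_one]
            exact hG
          · rw [Pi.single_eq_of_ne hc, map_zero, norm_zero]
            exact hG0
        · rw [if_neg hr, if_neg hr, norm_mul, Complex.norm_natCast]
          exact h1 _ _ _
      · rw [Finset.prod_const, Finset.card_univ, Fintype.card_fin]
    refine (Finset.sum_le_sum h6).trans (le_of_eq ?_)
    rw [Finset.sum_const, Finset.card_univ, Fintype.card_fin, nsmul_eq_mul]
    ring
  -- the product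
  have hcardK : Fintype.card (K →+* ℂ) = Module.finrank ℚ K := NumberField.Embeddings.card K ℂ
  have hn1 : ∀ σ : K →+* ℂ, 0 ≤ ‖σ x‖ := fun _ => norm_nonneg _
  have hpr : (1 : ℝ) ≤ ((n ! : ℝ) * G ^ n) ^ (Module.finrank ℚ K) * (n * V) := by
    refine hprod.trans ?_
    rw [← Finset.mul_prod_erase univ (fun σ : K →+* ℂ => ‖σ x‖) (Finset.mem_univ i0)]
    have h12 : ∏ σ ∈ univ.erase i0, ‖σ x‖ ≤ ((n ! : ℝ) * G ^ n) ^ (Module.finrank ℚ K - 1) := by
      refine (Finset.prod_le_prod (fun _ _ => norm_nonneg _) (fun σ _ => hall σ)).trans (le_of_eq ?_)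
      rw [Finset.prod_const, Finset.card_erase_of_mem (Finset.mem_univ _), Finset.card_univ, hcardK]
    have h13 : 0 ≤ ((n ! : ℝ) * G ^ n) ^ (Module.finrank ℚ K - 1) := by positivity
    have h14 : Module.finrank ℚ K = Module.finrank ℚ K - 1 + 1 := by
      have : 0 < Module.finrank ℚ K := Module.finrank_pos
      omega
    calc ‖i0 x‖ * ∏ σ ∈ univ.erase i0, ‖σ x‖ ≤ ‖i0 x‖ * ((n ! : ℝ) * G ^ n) ^ (Module.finrank ℚ K - 1) :=
          mul_le_mul_of_nonneg_left h12 (norm_nonneg _)
      _ ≤ (n * ((n ! : ℝ) * G ^ n) * V) * ((n ! : ℝ) * G ^ n) ^ (Module.finrank ℚ K - 1) :=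
          mul_le_mul_of_nonneg_right hi0 h13
      _ = ((n ! : ℝ) * G ^ n) ^ (Module.finrank ℚ K) * (n * V) := by
          conv_rhs => rw [h14, pow_succ]
          ring
  have hn : n ≤ Fintype.card B := by
    have := Fintype.card_le_of_injective col hcol
    rwa [Fintype.card_fin] at this
  have hV0 : 0 ≤ V := by
    rcases Nat.eq_zero_or_pos n with h0 | h0
    · rw [h0] at hpr
      norm_num at hpr
    · exact (by positivity : (0 : ℝ) ≤ (Dn (sel ⟨0, h0⟩) : ℝ) * ‖∑ b, i0 (va (sel ⟨0, h0⟩) b) * th b‖).trans (hV _)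
  refine hpr.trans ?_
  have h15 : (n ! : ℝ) ≤ ((Fintype.card B)! : ℝ) := by exact_mod_cast Nat.factorial_le hn
  have h16 : G ^ n ≤ G ^ (Fintype.card B) := pow_le_pow_right₀ hG hn
  have h17 : ((n ! : ℝ) * G ^ n) ^ (Module.finrank ℚ K) ≤
      (((Fintype.card B)! : ℝ) * G ^ (Fintype.card B)) ^ (Module.finrank ℚ K) :=
    pow_le_pow_left₀ (by positivity) (mul_le_mul h15 h16 (by positivity) (by positivity)) _
  have h18 : (n : ℝ) * V ≤ Fintype.card B * V :=
    mul_le_mul_of_nonneg_right (by exact_mod_cast hn) hV0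
  refine (mul_le_mul h17 h18 (by positivity) (by positivity)).trans (le_of_eq ?_)
  rw [mul_pow, ← pow_mul, Nat.mul_comm (Fintype.card B) (Module.finrank ℚ K)]
  ring

end Pool.Agent.H57LW
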