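import Pool.Agent.Lib.H57LW.A16

/-!
# A17: the same with linearly dependent values
-/

open Finset
open scoped Nat

namespace Pool.Agent.H57LW

theorem a17_den1 {K : Type*} [Field K] [NumberField K] (x : K) : ∃ d : ℕ, 0 < d ∧ IsIntegral ℤ ((d : K) * x) := by
  have hx : IsAlgebraic ℤ x := (IsFractionRing.isAlgebraic_iff ℤ ℚ K).mpr (Algebra.IsAlgebraic.isAlgebraic x)
  obtain ⟨y, hy, hi⟩ := hx.exists_integral_multiple
  refine ⟨y.natAbs, Int.natAbs_pos.mpr hy, ?_⟩
  rcases Int.natAbs_eq y with h | h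
  · have e : ((y.natAbs : ℕ) : K) * x = y • x := by
      rw [zsmul_eq_mul]
      congr 1
      rw [← Int.cast_natCast, ← h]
    rw [e]; exact hi
  · have e : ((y.natAbs : ℕ) : K) * x = -(y • x) := by
      rw [zsmul_eq_mul, ← neg_mul]
      congr 1
      rw [← Int.cast_natCast, ← Int.cast_neg]
      congr 1
      rw [eq_comm, neg_eq_iff_eq_neg]
      exact h
    rw [e]; exact hi.neg

theorem a17_den {K : Type*} [Field K] [NumberField K] {T : Type*} [Fintype T] (x : T → K) :
    ∃ d : ℕ, 0 < d ∧ ∀ t, IsIntegral ℤ ((d : K) * x t) := by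
  classical
  choose d hd hi using fun t => a17_den1 (x t)
  refine ⟨∏ t, d t, prod_pos fun t _ => hd t, fun t => ?_⟩
  have e : ((∏ s, d s : ℕ) : K) * x t = ((∏ s ∈ univ.erase t, d s : ℕ) : K) * ((d t : K) * x t) := by
    rw [← mul_prod_erase univ d (mem_univ t)]
    push_cast
    ring
  rw [e]
  refine IsIntegral.mul ?_ (hi t)
  exact_mod_cast (isIntegral_algebraMap (R := ℤ) (A := K) (x := ((∏ s ∈ univ.erase t, d s : ℕ) : ℤ)))

/-- `prodf` for `B` (as a subtype), `vp' s b' = ∑_b vp s b * c b b'`, `Dn' = δ Dn` (`δ` a common denominator of the `c b b'`). -/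
theorem prodf_few {K bx : Type*} [Field K] [NumberField K] [Fintype bx] [DecidableEq bx] (i0 : K →+* ℂ) (th : bx → ℂ)
    (b0 : bx) (hb0 : th b0 = 1) (l : ℕ) (hf : Few i0 b0 th l) :
    ∃ C : ℝ, 1 ≤ C ∧ ∀ (I : Type) [Finite I] (lev : I → ℕ) (vp va : I → bx → K),
      (∀ s, va s - vp s ∈ Submodule.span K (vp '' {t | lev t < lev s})) →
      (Pi.single b0 1 : bx → K) ∈ Submodule.span K (Set.range vp) → ∀ (Dn : I → ℕ), (∀ s, 0 < Dn s) →
      (∀ s b, IsIntegral ℤ ((Dn s : K) * vp s b)) → ∀ G V : ℝ, 1 ≤ G →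
      (∀ (σ : K →+* ℂ) s b, (Dn s : ℝ) * ‖σ (va s b)‖ ≤ G) →
      (∀ s, (Dn s : ℝ) * ‖∑ b, i0 (va s b) * th b‖ ≤ V) →
      1 ≤ C * G ^ (Module.finrank ℚ K * l) * V := by
  classical
  obtain ⟨B, c, hbB, hBl, hc1, hc0, hth⟩ := hf
  obtain ⟨δ, hδ, hδi⟩ := a17_den (fun q : bx × B => c q.1 q.2)
  -- a bound for all conjugates of the coefficients
  set Cc : ℝ := ∑ σ : K →+* ℂ, ∑ q : bx × B, ‖σ (c q.1 q.2)‖ with hCc
  have hCcle : ∀ (σ : K →+* ℂ) (b : bx) (b' : B), ‖σ (c b b')‖ ≤ Cc := by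
    intro σ b b'
    have h1 : ‖σ (c b b')‖ ≤ ∑ q : bx × B, ‖σ (c q.1 q.2)‖ :=
      single_le_sum (f := fun q : bx × B => ‖σ (c q.1 q.2)‖) (fun q _ => norm_nonneg _) (mem_univ (b, b'))
    have h2 : ∑ q : bx × B, ‖σ (c q.1 q.2)‖ ≤ Cc :=
      single_le_sum (f := fun σ : K →+* ℂ => ∑ q : bx × B, ‖σ (c q.1 q.2)‖)
        (fun σ _ => sum_nonneg fun q _ => norm_nonneg _) (mem_univ σ)
    exact h1.trans h2
  have hCc0 : 0 ≤ Cc := sum_nonneg fun σ _ => sum_nonneg fun q _ => norm_nonneg _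
  have hδr : (1 : ℝ) ≤ δ := by exact_mod_cast hδ
  set Cg : ℝ := δ * (Fintype.card bx * Cc) + 1 with hCg
  have hCg1 : 1 ≤ Cg := by
    have : 0 ≤ (δ : ℝ) * (Fintype.card bx * Cc) := by positivity
    linarith
  set f := Module.finrank ℚ K with hfdef
  set nB := Fintype.card B with hnB
  have hnB1 : 1 ≤ nB := Fintype.card_pos_iff.mpr ⟨⟨b0, hbB⟩⟩
  have hnBl : nB ≤ l := by rw [hnB, Fintype.card_coe]; exact hBl
  have hfac : (1 : ℝ) ≤ ((nB)! : ℝ) ^ f := by
    apply one_le_pow₀
    exact_mod_cast Nat.one_le_iff_ne_zero.mpr (Nat.factorial_ne_zero _)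
  have hnBr : (1 : ℝ) ≤ nB := by exact_mod_cast hnB1
  have hCgp : (1 : ℝ) ≤ Cg ^ (f * nB) := one_le_pow₀ hCg1
  refine ⟨((nB)! : ℝ) ^ f * nB * Cg ^ (f * nB) * δ, ?_, ?_⟩
  · exact one_le_mul_of_one_le_of_one_le
      (one_le_mul_of_one_le_of_one_le (one_le_mul_of_one_le_of_one_le hfac hnBr) hCgp) hδr
  intro I _ lev vp va htri he Dn hDn hint G V hG h1 hV
  -- the linear map
  let T : (bx → K) →ₗ[K] (B → K) := LinearMap.pi fun b' => ∑ b, (c b b') • LinearMap.proj b
  have hT : ∀ (v : bx → K) (b' : B), T v b' = ∑ b, v b * c b b' := by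
    intro v b'
    simp only [T, LinearMap.pi_apply, LinearMap.sum_apply, LinearMap.smul_apply, LinearMap.proj_apply, smul_eq_mul]
    exact sum_congr rfl fun b _ => mul_comm _ _
  have hmain := prodf (K := K) (B := B) (I := I) i0 (fun b' => th b') ⟨b0, hbB⟩ hb0 lev (fun s => T (vp s))
    (fun s => T (va s)) ?_ ?_ (fun s => δ * Dn s) ?_ ?_ (Cg * G) (δ * V) ?_ ?_ ?_
  · -- conclusion
    have hVpos : 0 < V := by
      by_contra hneg
      push Not at hneg
      have : ((Fintype.card B)! : ℝ) ^ Module.finrank ℚ K * Fintype.card B *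
          (Cg * G) ^ (Module.finrank ℚ K * Fintype.card B) * (δ * V) ≤ 0 := by
        apply mul_nonpos_of_nonneg_of_nonpos
        · have : 0 ≤ Cg * G := by positivity
          positivity
        · exact mul_nonpos_of_nonneg_of_nonpos (by positivity) hneg
      linarith
    refine hmain.trans ?_
    have hG2 : G ^ (f * nB) ≤ G ^ (f * l) := pow_le_pow_right₀ hG (Nat.mul_le_mul_left _ hnBl)
    have e : ((Fintype.card B)! : ℝ) ^ Module.finrank ℚ K * Fintype.card B *
          (Cg * G) ^ (Module.finrank ℚ K * Fintype.card B) * (δ * V) =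
        (((nB)! : ℝ) ^ f * nB * Cg ^ (f * nB) * δ) * G ^ (f * nB) * V := by
      rw [mul_pow]; ring
    rw [e]
    apply mul_le_mul_of_nonneg_right _ hVpos.le
    apply mul_le_mul_of_nonneg_left hG2
    positivity
  · -- htri
    intro s
    have h2 := Submodule.mem_map_of_mem (f := T) (htri s)
    rw [Submodule.map_span, map_sub] at h2
    have e : T '' (vp '' {t | lev t < lev s}) = (fun s => T (vp s)) '' {t | lev t < lev s} := by
      rw [Set.image_image]
    rw [e] at h2
    exact h2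
  · -- he
    have h2 := Submodule.mem_map_of_mem (f := T) he
    rw [Submodule.map_span] at h2
    have e : T '' (Set.range vp) = Set.range fun s => T (vp s) := by
      rw [← Set.range_comp]; rfl
    rw [e] at h2
    have e2 : T (Pi.single b0 1) = Pi.single (⟨b0, hbB⟩ : B) 1 := by
      funext b'
      rw [hT]
      rw [sum_eq_single b0]
      · rw [Pi.single_eq_same, one_mul]
        by_cases hb : b' = ⟨b0, hbB⟩
        · rw [hb, Pi.single_eq_same]; exact hc1
        · rw [Pi.single_eq_of_ne hb]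
          apply hc0
          intro h
          exact hb (Subtype.ext h)
      · intro b _ hb
        rw [Pi.single_eq_of_ne hb, zero_mul]
      · intro h; exact absurd (mem_univ _) h
    rw [e2] at h2
    exact h2
  · -- positivity
    intro s; exact Nat.mul_pos hδ (hDn s)
  · -- integrality
    intro s b'
    rw [hT]
    have e : ((δ * Dn s : ℕ) : K) * ∑ b, vp s b * c b b' = ∑ b, ((Dn s : K) * vp s b) * ((δ : K) * c b b') := by
      rw [mul_sum]
      apply sum_congr rfl; intro b _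
      push_cast
      ring
    rw [e]
    exact IsIntegral.sum _ fun b _ => (hint s b).mul (hδi (b, b'))
  · -- 1 ≤ Cg * G
    exact one_le_mul_of_one_le_of_one_le hCg1 hG
  · -- sizes
    intro σ s b'
    rw [hT, map_sum]
    have hG0 : 0 ≤ G := by linarith
    have hD0 : (0 : ℝ) ≤ Dn s := by positivity
    have h3 : ∀ b, (Dn s : ℝ) * ‖σ (va s b * c b b')‖ ≤ G * Cc := by
      intro b
      rw [map_mul, norm_mul, ← mul_assoc]
      exact mul_le_mul (h1 σ s b) (hCcle σ b b') (norm_nonneg _) hG0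
    have h4 : (Dn s : ℝ) * ‖∑ b, σ (va s b * c b b')‖ ≤ Fintype.card bx * (G * Cc) := by
      calc (Dn s : ℝ) * ‖∑ b, σ (va s b * c b b')‖ ≤ (Dn s : ℝ) * ∑ b, ‖σ (va s b * c b b')‖ :=
            mul_le_mul_of_nonneg_left (norm_sum_le _ _) hD0
        _ = ∑ b, (Dn s : ℝ) * ‖σ (va s b * c b b')‖ := by rw [mul_sum]
        _ ≤ ∑ _b : bx, G * Cc := sum_le_sum fun b _ => h3 b
        _ = Fintype.card bx * (G * Cc) := by rw [sum_const, card_univ, nsmul_eq_mul]
    have h5 : ((δ * Dn s : ℕ) : ℝ) * ‖∑ b, σ (va s b * c b b')‖ ≤ δ * (Fintype.card bx * (G * Cc)) := by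
      push_cast
      rw [mul_assoc]
      exact mul_le_mul_of_nonneg_left h4 (by positivity)
    refine h5.trans ?_
    rw [hCg]
    nlinarith
  · -- values
    intro s
    have e : ∑ b' : B, i0 (T (va s) b') * th b' = ∑ b, i0 (va s b) * th b := by
      have e1 : ∀ b, i0 (va s b) * th b = ∑ b' : B, i0 (va s b) * (i0 (c b b') * th b') := by
        intro b
        rw [← mul_sum]
        congr 1
        rw [hth b]
        exact (sum_coe_sort B (fun b' => i0 (c b b') * th b')).symm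
      rw [sum_congr rfl fun b _ => e1 b, sum_comm]
      apply sum_congr rfl; intro b' _
      rw [hT, map_sum, sum_mul]
      apply sum_congr rfl; intro b _
      rw [map_mul]; ring
    have e2 : ((δ * Dn s : ℕ) : ℝ) * ‖∑ b' : B, i0 (T (va s) b') * th b'‖ =
        δ * ((Dn s : ℝ) * ‖∑ b, i0 (va s b) * th b‖) := by
      rw [e]; push_cast; ring
    rw [e2]
    exact mul_le_mul_of_nonneg_left (hV s) (by positivity)

end Pool.Agent.H57LW
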