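import Pool.Agent.Lib.H57LW.A05

/-!
# A18: choice of `D` and `S`
-/

open Finset
open scoped Nat

namespace Pool.Agent.H57LW

/-- The real inequality. -/
theorem a18_real (s dd ρ m C C0 Lg : ℝ) (hs : 1 ≤ s) (hds : dd ≤ s) (hdd : 0 ≤ dd) (hρ : 0 ≤ ρ)
    (hd : dd ≤ 16 * ρ * s) (hm : 0 ≤ m) (hmρ : m * ρ ≤ 2 / 10 ^ 4) (hρ2 : ρ ≤ 1 / 10 ^ 4) (hC : 0 ≤ C)
    (hLg : 4 * (|C0| + 3 * m * C + 1) ≤ Lg) :
    C0 + m * ((dd / 2 + ρ * s) * Lg + C * (s + dd + 1)) < (3 / 8 - ρ / 4) * s * Lg := by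
  have hmC : 0 ≤ 3 * m * C := by positivity
  have hLg0 : 0 < Lg := lt_of_lt_of_le (by positivity) hLg
  have hs0 : 0 < s := by linarith
  have e1 : dd / 2 + ρ * s ≤ 9 * ρ * s := by linarith
  have e2 : m * (dd / 2 + ρ * s) ≤ 18 / 10 ^ 4 * s := by
    calc m * (dd / 2 + ρ * s) ≤ m * (9 * ρ * s) := mul_le_mul_of_nonneg_left e1 hm
      _ = 9 * (m * ρ) * s := by ring
      _ ≤ 9 * (2 / 10 ^ 4) * s := by
          refine mul_le_mul_of_nonneg_right ?_ hs0.le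
          linarith
      _ = _ := by ring
  have e3 : m * (dd / 2 + ρ * s) * Lg ≤ 18 / 10 ^ 4 * s * Lg := mul_le_mul_of_nonneg_right e2 hLg0.le
  have e4 : m * C * (s + dd + 1) ≤ m * C * (3 * s) := mul_le_mul_of_nonneg_left (by linarith) (by positivity)
  have e5 : C0 ≤ |C0| * s := by
    calc C0 ≤ |C0| := le_abs_self _
      _ = |C0| * 1 := (mul_one _).symm
      _ ≤ |C0| * s := mul_le_mul_of_nonneg_left hs (abs_nonneg _)
  have e6 : (|C0| + 3 * m * C + 1) * s ≤ Lg / 4 * s := mul_le_mul_of_nonneg_right (by linarith) hs0.le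
  have e7 : (3 / 8 - 1 / 40000) * (s * Lg) ≤ (3 / 8 - ρ / 4) * (s * Lg) :=
    mul_le_mul_of_nonneg_right (by linarith) (by positivity)
  have e8 : 0 < s * Lg := by positivity
  have e9 : (3 / 8 - ρ / 4) * s * Lg = (3 / 8 - ρ / 4) * (s * Lg) := by ring
  rw [e9]
  calc C0 + m * ((dd / 2 + ρ * s) * Lg + C * (s + dd + 1))
      = C0 + m * (dd / 2 + ρ * s) * Lg + m * C * (s + dd + 1) := by ring
    _ ≤ |C0| * s + 18 / 10 ^ 4 * s * Lg + m * C * (3 * s) := by linarith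
    _ = (|C0| + 3 * m * C + 1) * s + 18 / 10 ^ 4 * (s * Lg) - s := by ring
    _ ≤ Lg / 4 * s + 18 / 10 ^ 4 * (s * Lg) - s := by linarith
    _ = (1 / 4 + 18 / 10 ^ 4) * (s * Lg) - s := by ring
    _ < (3 / 8 - 1 / 40000) * (s * Lg) := by
        have : (1 / 4 + 18 / 10 ^ 4 : ℝ) * (s * Lg) ≤ (3 / 8 - 1 / 40000) * (s * Lg) :=
          mul_le_mul_of_nonneg_right (by norm_num) e8.le
        linarith
    _ ≤ _ := e7

/-- `D` large, `S = D L / (8 r)`: `D ≤ (8 r / L)(S + 1)`, `4 J ≤ 4 T + D L / (16 r) ≤ 4 T + (S + 1) / 2`,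
`(2 r l + 2) (4 r / L + r / L) ≤ 10 r² (l + 1) / L ≤ 10^(-3)`. -/
theorem numbers (r L l m0 T Nt : ℕ) (hr : 1 ≤ r) (hm0 : 1 ≤ m0) (h1 : 64 * r * Nt ≤ m0 * L)
    (h2 : 10 ^ 4 * r ^ 2 * (l + 1) ≤ L) (C0 C : ℝ) (hC : 0 ≤ C) (S0 : ℕ) :
    ∃ D S : ℕ, 1 ≤ D ∧ 4 * (r * S) ≤ D * L ∧ S0 ≤ S ∧ D ≤ S ∧ 4 * (T + D * Nt / m0) ≤ S ∧
      C0 + (2 * (r * l) + 2) * EE (r / L) C D S < (3 / 8 - (r / L) / 4) * S * Real.log (S + 1) := by
  have hr2 : r ≤ r ^ 2 := by nlinarith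
  have hrl : r ^ 2 ≤ r ^ 2 * (l + 1) := Nat.le_mul_of_pos_right _ (by omega)
  have h2' : 10 ^ 4 * (r ^ 2 * (l + 1)) ≤ L := by rw [← mul_assoc]; exact h2
  have h8 : 8 * r ≤ L := by omega
  have hL : 1 ≤ L := by omega
  obtain ⟨D0, hD0⟩ := exists_nat_ge (Real.exp (4 * (|C0| + 3 * (2 * (r * l) + 2) * C + 1)))
  obtain ⟨D, hD⟩ : ∃ D : ℕ, D = D0 + S0 + 8 * T + 1 := ⟨_, rfl⟩
  obtain ⟨S, hS⟩ : ∃ S : ℕ, S = D * L / (8 * r) := ⟨_, rfl⟩
  have h8r : 0 < 8 * r := by omega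
  have hS1 : 8 * r * S ≤ D * L := by rw [hS]; exact Nat.mul_div_le _ _
  have hS2 : D * L < 8 * r * (S + 1) := by rw [hS]; exact Nat.lt_mul_div_succ _ h8r
  have hDS : D ≤ S := by
    rw [hS, Nat.le_div_iff_mul_le h8r]
    exact Nat.mul_le_mul_left _ h8
  have hJ : 8 * (D * Nt / m0) ≤ S := by
    have a1 : m0 * (D * Nt / m0) ≤ D * Nt := Nat.mul_div_le _ _
    have a2 : m0 * (64 * r * (D * Nt / m0)) ≤ m0 * (D * L) := by
      calc m0 * (64 * r * (D * Nt / m0)) = 64 * r * (m0 * (D * Nt / m0)) := by ring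
        _ ≤ 64 * r * (D * Nt) := Nat.mul_le_mul_left _ a1
        _ = D * (64 * r * Nt) := by ring
        _ ≤ D * (m0 * L) := Nat.mul_le_mul_left _ h1
        _ = _ := by ring
    have a3 : 64 * r * (D * Nt / m0) ≤ D * L := Nat.le_of_mul_le_mul_left a2 (by omega)
    have a4 : 8 * r * (8 * (D * Nt / m0)) < 8 * r * (S + 1) := by
      calc 8 * r * (8 * (D * Nt / m0)) = 64 * r * (D * Nt / m0) := by ring
        _ ≤ D * L := a3
        _ < _ := hS2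
    have a5 := Nat.lt_of_mul_lt_mul_left a4
    omega
  refine ⟨D, S, by omega, ?_, by omega, hDS, by omega, ?_⟩
  · have : 4 * (r * S) ≤ 8 * r * S := by nlinarith
    omega
  · have hLr : (0 : ℝ) < L := by exact_mod_cast hL
    have hrr : (1 : ℝ) ≤ r := by exact_mod_cast hr
    have hl0 : (0 : ℝ) ≤ l := Nat.cast_nonneg l
    have hs1 : (1 : ℝ) ≤ S := by
      have : 1 ≤ S := by omega
      exact_mod_cast this
    have hm0' : (0 : ℝ) ≤ 2 * (r * l) + 2 := by positivity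
    have h2r : (10 : ℝ) ^ 4 * r ^ 2 * (l + 1) ≤ L := by exact_mod_cast h2
    have hrho : (r : ℝ) * (r * (l + 1)) / L ≤ 1 / 10 ^ 4 := by
      rw [div_le_iff₀ hLr]
      nlinarith
    have hmρ : (2 * ((r : ℝ) * l) + 2) * (r / L) ≤ 2 / 10 ^ 4 := by
      calc (2 * ((r : ℝ) * l) + 2) * (r / L) ≤ (2 * (r * (l + 1))) * (r / L) :=
            mul_le_mul_of_nonneg_right (by nlinarith) (by positivity)
        _ = 2 * ((r : ℝ) * (r * (l + 1)) / L) := by ring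
        _ ≤ 2 * (1 / 10 ^ 4) := mul_le_mul_of_nonneg_left hrho (by norm_num)
        _ = _ := by ring
    have hρ2 : (r : ℝ) / L ≤ 1 / 10 ^ 4 := by
      refine le_trans (div_le_div_of_nonneg_right ?_ hLr.le) hrho
      nlinarith [mul_nonneg (by linarith : (0 : ℝ) ≤ r) hl0]
    have hd : (D : ℝ) ≤ 16 * (r / L) * S := by
      have b1 : (D : ℝ) * L ≤ 8 * r * (S + 1) := by exact_mod_cast hS2.le
      have b2 : (8 : ℝ) * r * (S + 1) ≤ 16 * r * S := by nlinarith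
      rw [show 16 * ((r : ℝ) / L) * S = 16 * r * S / L by ring, le_div_iff₀ hLr]
      linarith
    have hLg : 4 * (|C0| + 3 * (2 * (r * l) + 2) * C + 1) ≤ Real.log (S + 1) := by
      rw [Real.le_log_iff_exp_le (by positivity)]
      have c1 : (D0 : ℝ) ≤ S := by
        have : D0 ≤ S := by omega
        exact_mod_cast this
      linarith
    exact a18_real S D (r / L) (2 * (r * l) + 2) C C0 (Real.log (S + 1)) hs1 (by exact_mod_cast hDS) (Nat.cast_nonneg _)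
      (by positivity) hd hm0' hmρ hρ2 hC hLg

end Pool.Agent.H57LW
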