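import Pool.Agent.Lib.H57LW.A08
import Pool.Agent.Lib.H57LW.A09
import Pool.Agent.Lib.H57LW.A12
import Pool.Agent.Lib.H57LW.A17
import Pool.Agent.Lib.H57LW.A18

/-!
# A19: the abstract arithmetic theorem, normalised factors
-/

open Finset PowerSeries
open scoped Nat

namespace Pool.Agent.H57LW

/-- A product with a series whose first `S` coefficients vanish. -/
theorem a19_van {K : Type*} [Field K] (Xi R : K⟦X⟧) (S : ℕ) (h : ∀ i, i < S → coeff i R = 0) (i : ℕ) (hi : i < S) :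
    coeff i (Xi * R) = 0 := by
  rw [PowerSeries.coeff_mul]
  refine Finset.sum_eq_zero fun p hp => ?_
  have h1 : p.1 + p.2 = i := Finset.HasAntidiagonal.mem_antidiagonal.1 hp
  rw [h p.2 (by omega), mul_zero]

/-- The triangular relation. -/
theorem a19_tri {K : Type*} [Field K] {bx kap : Type} {J e0 : ℕ} {Xi : K⟦X⟧} (hXi : Lead e0 Xi)
    (R Ra : kap → bx → K⟦X⟧) (hR : ∀ k b, Ra k b = Xi * R k b) (s : kap × Fin (J + 1)) :
    (fun b => coeff ((s.2 : ℕ) + e0) (Ra s.1 b)) - (fun b => coeff (s.2 : ℕ) (R s.1 b)) ∈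
      Submodule.span K ((fun (t : kap × Fin (J + 1)) (b : bx) => coeff (t.2 : ℕ) (R t.1 b)) ''
        {t | (t.2 : ℕ) < (s.2 : ℕ)}) := by
  have h1 : (fun b => coeff ((s.2 : ℕ) + e0) (Ra s.1 b)) - (fun b => coeff (s.2 : ℕ) (R s.1 b)) =
      ∑ j ∈ range (s.2 : ℕ), coeff (e0 + ((s.2 : ℕ) - j)) Xi • (fun b => coeff j (R s.1 b)) := by
    funext b
    rw [Pi.sub_apply, hR, coeff_lead_mul hXi, add_sub_cancel_left, Finset.sum_apply]
    rfl
  rw [h1]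
  refine Submodule.sum_mem _ fun j hj => Submodule.smul_mem _ _ (Submodule.subset_span ?_)
  rw [Finset.mem_range] at hj
  have h2 : j < J + 1 := hj.trans s.2.2
  exact ⟨(s.1, ⟨j, h2⟩), hj, rfl⟩

/-- The rows are indexed by `kap × Fin (J + 1)`, `J = T + D Nt / m0`, the level is the second component, `Dn = d (level)`. -/
theorem main_lead {K : Type*} [Field K] [NumberField K] (i0 : K →+* ℂ) {lam kap bx : Type} [Fintype lam] [Finite kap]
    [Fintype bx] [DecidableEq bx] (b0 : bx)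
    (Psa Psp : lam → K⟦X⟧) (e1 : ℕ) (Xi0 : K⟦X⟧) (hXi0 : Lead e1 Xi0) (hPs : ∀ l, Psa l = Xi0 * Psp l)
    (Ha Hp : kap → lam → bx → K⟦X⟧) (e0 : ℕ) (Xi : K⟦X⟧) (hXi : Lead e0 Xi) (hH : ∀ k l b, Ha k l b = Xi * Hp k l b)
    (hAG1 : ∀ (σ : K →+* ℂ) l, AG (PowerSeries.map σ (Psa l)))
    (hAG2 : ∀ (σ : K →+* ℂ) k l b, AG (PowerSeries.map σ (Ha k l b)))
    (d : ℕ → ℕ) (hd : Den d) (hd1 : ∀ i l, IsIntegral ℤ ((d i : K) * coeff i (Psp l)))
    (hd2 : ∀ i k l b, IsIntegral ℤ ((d i : K) * coeff i (Hp k l b)))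
    (m0 l T Nt : ℕ) (hm0 : 1 ≤ m0) (th : ℕ → bx → ℂ) (hth : ∀ m, 1 ≤ m → m ≤ m0 → th m b0 = 1)
    (hfew : ∀ m, 1 ≤ m → m ≤ m0 → Few i0 b0 (th m) l)
    (hlink : ∀ m, 1 ≤ m → m ≤ m0 → ∀ k, ∃ Th : ℂ⟦X⟧, (∃ C : ℝ, ∀ i, ‖coeff i Th‖ ≤ C ^ (i + 1)) ∧
      ∀ l, ∑ b, PowerSeries.map i0 (Ha k l b) * PowerSeries.C (th m b) =
        Th * TT (m : ℂ) (PowerSeries.map i0 (Psa l)))
    (hzeh : ∀ (D : ℕ) (p : Fin D → lam → ℤ), p ≠ 0 → ∃ m, 1 ≤ m ∧ m ≤ m0 ∧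
      (Pi.single b0 1 : bx → K) ∈ Submodule.span K {v | ∃ k i, i ≤ T + D * Nt / m0 ∧
        v = fun b => coeff i (RS m (fun l => Hp k l b) p)})
    (hnum1 : 64 * Module.finrank ℚ K * Nt ≤ m0 * Fintype.card lam)
    (hnum2 : 10 ^ 4 * Module.finrank ℚ K ^ 2 * (l + 1) ≤ Fintype.card lam) : False := by
  classical
  have hr : 1 ≤ Module.finrank ℚ K := Module.finrank_pos
  have hL : 1 ≤ Fintype.card lam := by
    refine le_trans ?_ hnum2
    have h1 : 1 ≤ Module.finrank ℚ K ^ 2 := Nat.one_le_pow _ _ hr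
    nlinarith
  have : Nonempty lam := Fintype.card_pos_iff.1 hL
  set r : ℕ := Module.finrank ℚ K with hrdef
  set L : ℕ := Fintype.card lam with hLdef
  have hrR : (0 : ℝ) < r := by exact_mod_cast hr
  have hLR : (0 : ℝ) < L := by exact_mod_cast hL
  set ε : ℝ := (r : ℝ) / L with hεdef
  have hε : 0 < ε := div_pos hrR hLR
  obtain ⟨C1, hC1, haux⟩ := aux Psa Psp e1 Xi0 hXi0 hPs hAG1 d hd hd1 ε hε
  obtain ⟨C2, hC2, hrows⟩ := rows (K := K) m0 e0 (fun (kb : kap × bx) l => Ha kb.1 l kb.2)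
    (fun σ kb l => hAG2 σ kb.1 l kb.2) d hd ε hε
  obtain ⟨C3, S0, hC3, hvals⟩ := vals i0 Psa (fun l => hAG1 i0 l) Ha m0 e0 th hlink d hd ε hε
  -- the constants of the product formula
  have hpf : ∃ C4 : ℝ, 1 ≤ C4 ∧ ∀ m, 1 ≤ m → m ≤ m0 → ∀ (I : Type) [Finite I] (lev : I → ℕ) (vp va : I → bx → K),
      (∀ s, va s - vp s ∈ Submodule.span K (vp '' {t | lev t < lev s})) →
      (Pi.single b0 1 : bx → K) ∈ Submodule.span K (Set.range vp) → ∀ (Dn : I → ℕ), (∀ s, 0 < Dn s) →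
      (∀ s b, IsIntegral ℤ ((Dn s : K) * vp s b)) → ∀ G V : ℝ, 1 ≤ G →
      (∀ (σ : K →+* ℂ) s b, (Dn s : ℝ) * ‖σ (va s b)‖ ≤ G) →
      (∀ s, (Dn s : ℝ) * ‖∑ b, i0 (va s b) * th m b‖ ≤ V) → 0 ≤ V →
      1 ≤ C4 * G ^ (r * l) * V := by
    have h1 : ∀ m : ℕ, ∃ C : ℝ, 1 ≤ C ∧ (1 ≤ m → m ≤ m0 → ∀ (I : Type) [Finite I] (lev : I → ℕ) (vp va : I → bx → K),
        (∀ s, va s - vp s ∈ Submodule.span K (vp '' {t | lev t < lev s})) →
        (Pi.single b0 1 : bx → K) ∈ Submodule.span K (Set.range vp) → ∀ (Dn : I → ℕ), (∀ s, 0 < Dn s) →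
        (∀ s b, IsIntegral ℤ ((Dn s : K) * vp s b)) → ∀ G V : ℝ, 1 ≤ G →
        (∀ (σ : K →+* ℂ) s b, (Dn s : ℝ) * ‖σ (va s b)‖ ≤ G) →
        (∀ s, (Dn s : ℝ) * ‖∑ b, i0 (va s b) * th m b‖ ≤ V) →
        1 ≤ C * G ^ (r * l) * V) := by
      intro m
      by_cases hm : 1 ≤ m ∧ m ≤ m0
      · obtain ⟨C, hC, h2⟩ := prodf_few i0 (th m) b0 (hth m hm.1 hm.2) l (hfew m hm.1 hm.2)
        exact ⟨C, hC, fun _ _ => h2⟩
      · exact ⟨1, le_rfl, fun h2 h3 => absurd ⟨h2, h3⟩ hm⟩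
    choose Cm hCm hCm2 using h1
    refine ⟨∑ m ∈ range (m0 + 1), Cm m, ?_, ?_⟩
    · refine le_trans (hCm 0) ?_
      exact Finset.single_le_sum (f := Cm) (fun m _ => zero_le_one.trans (hCm m)) (Finset.mem_range.2 (by omega))
    · intro m hm1 hm2 I _ lev vp va q1 q2 Dn q3 q4 G V q5 q6 q7 q8
      refine (hCm2 m hm1 hm2 I lev vp va q1 q2 Dn q3 q4 G V q5 q6 q7).trans ?_
      have h3 : Cm m ≤ ∑ m ∈ range (m0 + 1), Cm m :=
        Finset.single_le_sum (f := Cm) (fun m _ => zero_le_one.trans (hCm m)) (Finset.mem_range.2 (by omega))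
      have h4 : 0 ≤ G ^ (r * l) := pow_nonneg (zero_le_one.trans q5) _
      exact mul_le_mul_of_nonneg_right (mul_le_mul_of_nonneg_right h3 h4) q8
  obtain ⟨C4, hC4, hpf⟩ := hpf
  have hC : 0 ≤ C1 + C2 + C3 := by positivity
  obtain ⟨D, S, hD, hDS, hS0, hDS2, hJ, hfin⟩ := numbers r L l m0 T Nt hr hm0 hnum1 hnum2 (Real.log C4) (C1 + C2 + C3) hC S0
  obtain ⟨N, p, hp, hpN, hN, hvan⟩ := haux D S hD hDS
  obtain ⟨m, hm1, hm2, hspan⟩ := hzeh D p hp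
  -- `N ≥ 1`
  have hN1 : 1 ≤ N := by
    by_contra h
    apply hp
    funext a l
    have h1 := hpN a l
    have h2 : N = 0 := by omega
    rw [h2] at h1
    exact abs_nonpos_iff.1 (by exact_mod_cast h1)
  set J : ℕ := T + D * Nt / m0 with hJdef
  set E1 : ℝ := EE ε C1 D S with hE1
  set E2 : ℝ := EE ε C2 D S with hE2
  set E3 : ℝ := EE ε C3 D S with hE3
  set E : ℝ := EE ε (C1 + C2 + C3) D S with hE
  have l1 : E1 ≤ E := EE_mono (by linarith) D S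
  have l2 : E2 ≤ E := EE_mono (by linarith) D S
  have l3 : E3 ≤ E := EE_mono (by linarith) D S
  have hE20 : 0 ≤ E2 := EE_nonneg hε.le hC2 D S
  have hE0 : 0 ≤ E := EE_nonneg hε.le hC D S
  have hNR : (1 : ℝ) ≤ N := by exact_mod_cast hN1
  have hG : 1 ≤ (N : ℝ) * Real.exp E2 := by
    have h1 : 1 ≤ Real.exp E2 := Real.one_le_exp hE20
    nlinarith
  have hvan' : ∀ i, i < S → coeff i (RS 0 Psa p) = 0 := by
    intro i hi
    have h1 : RS 0 Psa p = Xi0 * RS 0 Psp p := by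
      rw [← RS_mul]
      congr 1
      funext l
      exact hPs l
    rw [h1]
    exact a19_van _ _ S hvan i hi
  have hRa : ∀ k b, RS m (fun l => Ha k l b) p = Xi * RS m (fun l => Hp k l b) p := by
    intro k b
    rw [← RS_mul]
    congr 1
    funext l
    exact hH k l b
  have hJS : ∀ s : Fin (J + 1), 4 * (s : ℕ) ≤ S := by
    intro s
    have h1 := s.2
    omega
  have key := hpf m hm1 hm2 (kap × Fin (J + 1)) (fun s => (s.2 : ℕ))
    (fun s b => coeff (s.2 : ℕ) (RS m (fun l => Hp s.1 l b) p))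
    (fun s b => coeff ((s.2 : ℕ) + e0) (RS m (fun l => Ha s.1 l b) p))
    (fun s => a19_tri hXi (fun k b => RS m (fun l => Hp k l b) p) (fun k b => RS m (fun l => Ha k l b) p) hRa s)
    (by
      refine Submodule.span_mono ?_ hspan
      rintro v ⟨k, i, hi, rfl⟩
      exact ⟨(k, ⟨i, Nat.lt_succ_of_le hi⟩), rfl⟩)
    (fun s => d (s.2 : ℕ)) (fun s => hd.pos _)
    (fun s b => RS_int hd.dvd (fun l => Hp s.1 l b) (fun i l => hd2 i s.1 l b) m p (s.2 : ℕ))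
    ((N : ℝ) * Real.exp E2) ((N : ℝ) * Real.exp (E3 - (3 / 8 - ε / 4) * S * Real.log (S + 1))) hG
    (fun σ s b => hrows D S N p hpN m hm2 (s.2 : ℕ) (by have := hJS s.2; omega) σ (s.1, b))
    (fun s => hvals D S N p hS0 hDS2 hpN hvan' m hm1 hm2 s.1 (s.2 : ℕ) (hJS s.2))
    (by positivity)
  -- conclusion
  have hC40 : 0 < C4 := lt_of_lt_of_le one_pos hC4
  have u1 : (N : ℝ) * Real.exp E2 ≤ Real.exp (2 * E) := by
    calc (N : ℝ) * Real.exp E2 ≤ Real.exp E1 * Real.exp E2 := mul_le_mul_of_nonneg_right hN (Real.exp_pos _).le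
      _ = Real.exp (E1 + E2) := (Real.exp_add _ _).symm
      _ ≤ Real.exp (2 * E) := Real.exp_le_exp.2 (by linarith)
  have u2 : (N : ℝ) * Real.exp (E3 - (3 / 8 - ε / 4) * S * Real.log (S + 1)) ≤
      Real.exp (2 * E - (3 / 8 - ε / 4) * S * Real.log (S + 1)) := by
    calc (N : ℝ) * Real.exp (E3 - (3 / 8 - ε / 4) * S * Real.log (S + 1))
        ≤ Real.exp E1 * Real.exp (E3 - (3 / 8 - ε / 4) * S * Real.log (S + 1)) :=
          mul_le_mul_of_nonneg_right hN (Real.exp_pos _).le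
      _ = Real.exp (E1 + (E3 - (3 / 8 - ε / 4) * S * Real.log (S + 1))) := (Real.exp_add _ _).symm
      _ ≤ _ := Real.exp_le_exp.2 (by linarith)
  have u3 : ((N : ℝ) * Real.exp E2) ^ (r * l) ≤ Real.exp ((r * l : ℕ) * (2 * E)) := by
    rw [Real.exp_nat_mul]
    exact pow_le_pow_left₀ (zero_le_one.trans hG) u1 _
  have u4 : C4 * ((N : ℝ) * Real.exp E2) ^ (r * l) * ((N : ℝ) * Real.exp (E3 - (3 / 8 - ε / 4) * S * Real.log (S + 1))) ≤
      Real.exp (Real.log C4 + (r * l : ℕ) * (2 * E) + (2 * E - (3 / 8 - ε / 4) * S * Real.log (S + 1))) := by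
    rw [Real.exp_add, Real.exp_add, Real.exp_log hC40]
    exact mul_le_mul (mul_le_mul_of_nonneg_left u3 hC40.le) u2 (by positivity) (by positivity)
  have u5 : Real.log C4 + (r * l : ℕ) * (2 * E) + (2 * E - (3 / 8 - ε / 4) * S * Real.log (S + 1)) < 0 := by
    push_cast
    linarith
  have u6 := key.trans u4
  have u7 : Real.exp (Real.log C4 + (r * l : ℕ) * (2 * E) + (2 * E - (3 / 8 - ε / 4) * S * Real.log (S + 1))) < 1 :=
    (Real.exp_lt_exp.2 u5).trans_eq Real.exp_zero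
  exact absurd u6 (not_le.2 u7)

end Pool.Agent.H57LW
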