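import Mathlib

/-!
# Project H57LW: the abstract arithmetic theorem of the elliptic Lindemann-Weierstrass project (module A of H47E)

Paper proof: section 8 of `Lib/H47E/PROOF.md` and `PROOF.md` here.
-/

open Finset PowerSeries
open scoped Nat

namespace Pool.Agent.H57LW

noncomputable section

/-- The coefficients are `O(C^i / sqrt (i!))`. -/
def AG (F : ℂ⟦X⟧) : Prop := ∃ C : ℝ, ∀ i : ℕ, ‖coeff i F‖ ≤ C ^ (i + 1) / √(i ! : ℝ)

/-- The same with a given constant. -/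
def AGC (C : ℝ) (F : ℂ⟦X⟧) : Prop := ∀ i : ℕ, ‖coeff i F‖ ≤ C ^ (i + 1) / √(i ! : ℝ)

/-- Taylor series at `m` of the entire function with power series `F`. -/
def TT (m : ℂ) (F : ℂ⟦X⟧) : ℂ⟦X⟧ :=
  PowerSeries.mk fun n => ∑' i : ℕ, coeff (n + i) F * ((n + i).choose n : ℂ) * m ^ i

/-- `∑ p_(a,l) (m + u)^a H_l`. -/
def RS {K lam : Type*} [Field K] [Fintype lam] (m : ℕ) (H : lam → K⟦X⟧) {D : ℕ} (p : Fin D → lam → ℤ) : K⟦X⟧ :=
  ∑ a, ∑ l, (p a l : K⟦X⟧) * (((m : K⟦X⟧) + X) ^ (a : ℕ) * H l)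

/-- All values `th b` are `K`-combinations (via `i0`) of the values at at most `l` places, one of them `b0`. -/
def Few {K bx : Type*} [Field K] (i0 : K →+* ℂ) (b0 : bx) (th : bx → ℂ) (l : ℕ) : Prop :=
  ∃ (B : Finset bx) (c : bx → bx → K), b0 ∈ B ∧ B.card ≤ l ∧ c b0 b0 = 1 ∧ (∀ b, b ≠ b0 → c b0 b = 0) ∧
    ∀ b, th b = ∑ b' ∈ B, i0 (c b b') * th b'

/-- Denominators: increasing for divisibility, `log (d i) ≤ (1/2 + ε) i log i + O(i)`. -/
structure Den (d : ℕ → ℕ) : Prop where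
  pos : ∀ i, 0 < d i
  dvd : ∀ i j, i ≤ j → d i ∣ d j
  log : ∀ ε : ℝ, 0 < ε → ∃ C : ℝ, ∀ i : ℕ, Real.log (d i) ≤ (1 / 2 + ε) * i * Real.log (i + 1) + C * (i + 1)

/-- The weight `sqrt ((n+1)^D / n!)`. -/
def wt (D n : ℕ) : ℝ := √(((n : ℝ) + 1) ^ D / (n ! : ℝ))

/-- The exponent in all estimates. -/
def EE (ε C : ℝ) (D S : ℕ) : ℝ := ((D : ℝ) / 2 + ε * S) * Real.log (S + 1) + C * (S + D + 1)

/-- The series `Xi` has order `e` and leading coefficient `1`. -/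
def Lead {K : Type*} [Field K] (e : ℕ) (Xi : K⟦X⟧) : Prop := (∀ i, i < e → coeff i Xi = 0) ∧ coeff e Xi = 1

end

end Pool.Agent.H57LW
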